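import Pool.Agent.H695R3.OPT.Tasks

/-! Assembly of the parts. -/

namespace Pool.Agent.NPC.H695OPT

open Pool.Agent.NPC Pool.Agent.NPC.ER

/-- a global minimiser is a local minimiser -/
theorem locMin_of_attains {n : ℕ} {f : (Fin n → ℝ) → ℝ} (h : Attains f) : HasLocMin f := by
  obtain ⟨x, hx⟩ := h
  exact ⟨x, Filter.Eventually.of_forall hx⟩

theorem sop_of_locMin (hD9 : S_D9) {d n : ℕ} {p : Pol ℝ} (hp : Deg d n p)
    (h : HasLocMin (pfn n p)) : HasSOP (pfn n p) := by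
  obtain ⟨x, hx⟩ := h
  exact ⟨x, hD9 d n p hp x hx⟩

section Quartic

variable (hH1 : S_H1) (hH2 : S_H2) (hH3 : S_H3) (hH4 : S_H4) (hH5 : S_H5) (hH6 : S_H6)
  (hH7 : S_H7) (hH8 : S_H8) (hH9 : S_H9) (hH10 : S_H10) (hH11 : S_H11) (hH12 : S_H12)
  (hD9 : S_D9)

include hH1 hH2 hH3 hH4 hH5 hH7 hH8 hH9 hH10 hH11 hH12 in
theorem solv_of_sop (n : ℕ) (S : List (Pol ℝ)) (hS : ∀ q ∈ S, Deg 2 n q)
    (h : HasSOP (pfn (n + 2) (quart S))) : Solv n S := by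
  obtain ⟨z, hz⟩ := h
  have h1 := hH10 hH1 hH2 hH3 hH5 n S hS z hz.1
  exact hH9 hH4 n S hS z (hH11 hH1 hH2 hH5 hH12 n S hS z hz h1) h1

include hH1 hH2 hH3 hH4 hH5 hH7 hH8 in
theorem attains_of_solv (n : ℕ) (S : List (Pol ℝ)) (hS : ∀ q ∈ S, Deg 2 n q)
    (h : Solv n S) : Attains (pfn (n + 2) (quart S)) := by
  obtain ⟨z, hz⟩ := hH8 hH1 hH2 hH4 n S hS h
  refine ⟨z, fun y => ?_⟩
  rw [hz]
  exact (hH7 hH1 hH2 hH3 hH5 n S hS).1 y

include hH1 hH2 hH3 hH4 hH5 hH6 hH7 hH8 hH9 hH10 hH11 hH12 hD9 in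
theorem quartic_tfae (n : ℕ) (S : List (Pol ℝ)) (hS : ∀ q ∈ S, Deg 2 n q) :
    List.TFAE [Solv n S, ∃ z, pfn (n + 2) (quart S) z = 0, Attains (pfn (n + 2) (quart S)),
      HasLocMin (pfn (n + 2) (quart S)), HasSOP (pfn (n + 2) (quart S))] := by
  tfae_have 1 → 2 := fun h => hH8 hH1 hH2 hH4 n S hS h
  tfae_have 2 → 3 := by
    rintro ⟨z, hz⟩
    exact ⟨z, fun y => by rw [hz]; exact (hH7 hH1 hH2 hH3 hH5 n S hS).1 y⟩
  tfae_have 3 → 4 := locMin_of_attains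
  tfae_have 4 → 5 := sop_of_locMin hD9 (hH6 ℝ _ n S hS)
  tfae_have 5 → 1 :=
    solv_of_sop hH1 hH2 hH3 hH4 hH5 hH7 hH8 hH9 hH10 hH11 hH12 n S hS
  tfae_finish

end Quartic

/-- critical points of a polynomial are the solutions of `critSys` -/
theorem hasCrit_iff (hD1 : S_D1) (hD3 : S_D3) {d n : ℕ} {p : Pol ℝ} (hp : Deg d n p) :
    HasCrit (pfn n p) ↔ Solv n (critSys n p) := by
  unfold HasCrit Solv critSys
  refine exists_congr fun x => ?_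
  rw [hD3 hD1 d n p hp x]
  constructor
  · intro h q hq
    obtain ⟨i, hi, rfl⟩ := List.mem_map.1 hq
    exact h ⟨i, List.mem_range.1 hi⟩
  · intro h i
    exact h _ (List.mem_map.2 ⟨i, List.mem_range.2 i.2, rfl⟩)

theorem solv_congr {n m : ℕ} (h : n = m) (S : List (Pol ℝ)) : Solv n S ↔ Solv m S := by
  subst h; rfl

theorem hasSOP_congr {n m : ℕ} (h : n = m) (p : Pol ℝ) : HasSOP (pfn n p) ↔ HasSOP (pfn m p) := by
  subst h; rfl

theorem hasLocMin_congr {n m : ℕ} (h : n = m) (p : Pol ℝ) :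
    HasLocMin (pfn n p) ↔ HasLocMin (pfn m p) := by
  subst h; rfl

theorem attains_congr {n m : ℕ} (h : n = m) (p : Pol ℝ) :
    Attains (pfn n p) ↔ Attains (pfn m p) := by
  subst h; rfl

theorem hasCrit_congr {n m : ℕ} (h : n = m) (p : Pol ℝ) :
    HasCrit (pfn n p) ↔ HasCrit (pfn m p) := by
  subst h; rfl

section Boolean

/-- membership in `∃ℝ` from a formula and a test -/
theorem inER_of {D Q : Inst → Prop} {DB : Inst → Bool} {φ : Inst → Fm}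
    (hDB : ∀ P, DB P = true ↔ D P) (hDp : Poly DB) (hφ : Poly φ)
    (hm : ∀ P, D P → (Q P ↔ ETR (φ P))) : InER (lang fun P => D P ∧ Q P) := by
  refine H670R2.InER.of_poly (F := fun P => if DB P = true then φ P else H670R2.ff)
    (Poly.ite (Poly.decide_bool hDp) hφ (Poly.const _)) fun P => ?_
  by_cases h : DB P = true
  · rw [if_pos h, ← hm P ((hDB P).1 h)]
    have := (hDB P).1 h
    tauto
  · rw [if_neg h]
    have h2 : ¬ D P := fun h' => h ((hDB P).2 h')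
    constructor
    · intro h'; exact absurd h'.1 h2
    · rintro ⟨x, hx⟩; exact absurd hx (H670R2.holds_ff x)

variable (hH1 : S_H1) (hH2 : S_H2) (hH3 : S_H3) (hH4 : S_H4) (hH5 : S_H5) (hH6 : S_H6)
  (hH7 : S_H7) (hH8 : S_H8) (hH9 : S_H9) (hH10 : S_H10) (hH11 : S_H11) (hH12 : S_H12)
  (hD1 : S_D1) (hD2 : S_D2) (hD3 : S_D3) (hD4 : S_D4) (hD5 : S_D5) (hD6 : S_D6) (hD7 : S_D7)
  (hD9 : S_D9) (hC1 : S_C1) (hC2 : S_C2) (hC3 : S_C3) (hB0 : S_B0) (hB9 : S_B9) (hB1 : S_B1)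
  (hB2 : S_B2) (hB3 : S_B3) (hB4 : S_B4) (hB5 : S_B5) (hB6 : S_B6) (hB7 : S_B7) (hB8 : S_B8)

include hB1 hB2 in
theorem deg_conSys (S : List Con) :
    ∀ q ∈ (conSys S).map cst, Deg 2 (H612.varsOf S).length q := by
  intro q hq
  obtain ⟨r, hr, rfl⟩ := List.mem_map.1 hq
  exact (hB1.2.2.2.2 _ _ _).2 (hB2.1 S r hr)

include hB1 hB2 hH1 hH2 hH3 hH4 hH5 hH6 hH7 hH8 hH9 hH10 hH11 hH12 hD9 in
theorem redQ_spec (S : List Con) :
    IsDeg 4 (redQ S) ∧ (∀ z, 0 ≤ ifn (redQ S) z) ∧ (∀ ε : ℝ, 0 < ε → ∃ z, ifn (redQ S) z < ε) ∧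
      List.TFAE [Sat S, Attains (ifn (redQ S)), HasLocMin (ifn (redQ S)),
        HasSOP (ifn (redQ S))] := by
  have hlen : (redQ S).1.length = (H612.varsOf S).length + 2 := by simp [redQ]
  have hd := deg_conSys hB1 hB2 S
  have hf : ∀ (Φ : ∀ n : ℕ, ((Fin n → ℝ) → ℝ) → Prop), Φ _ (ifn (redQ S)) ↔
      Φ _ (pfn ((H612.varsOf S).length + 2) (quart ((conSys S).map cst))) := by
    intro Φ
    have h1 : ifn (redQ S) = pfn (redQ S).1.length (cst (quart (conSys S))) := rfl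
    rw [h1, hB1.2.2.1]
    generalize (redQ S).1.length = m at hlen
    subst hlen
    rfl
  refine ⟨?_, ?_, ?_, ?_⟩
  · unfold IsDeg
    rw [hlen]
    exact hH6 ℤ _ _ _ (hB2.1 S)
  · exact (hf fun n f => ∀ z, 0 ≤ f z).2 (hH7 hH1 hH2 hH3 hH5 _ _ hd).1
  · exact (hf fun n f => ∀ ε : ℝ, 0 < ε → ∃ z, f z < ε).2 (hH7 hH1 hH2 hH3 hH5 _ _ hd).2
  · have h := quartic_tfae hH1 hH2 hH3 hH4 hH5 hH6 hH7 hH8 hH9 hH10 hH11 hH12 hD9 _ _ hd
    have e1 := hB2.2 S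
    have e2 := hf fun n f => Attains f
    have e3 := hf fun n f => HasLocMin f
    have e4 := hf fun n f => HasSOP f
    have h12 := h.out 0 2
    have h13 := h.out 0 3
    have h14 := h.out 0 4
    tfae_have 1 ↔ 2 := by rw [e1, e2]; exact h12
    tfae_have 1 ↔ 3 := by rw [e1, e3]; exact h13
    tfae_have 1 ↔ 4 := by rw [e1, e4]; exact h14
    tfae_finish

include hB1 hB2 hC1 hC2 hC3 in
theorem redL_spec (S : List Con) : IsDeg 3 (redL S) ∧ (Sat S ↔ HasCrit (ifn (redL S))) := by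
  have hlen : (redL S).1.length = (conSys S).length + (H612.varsOf S).length := by simp [redL]
  have hd := deg_conSys hB1 hB2 S
  constructor
  · unfold IsDeg
    rw [hlen]
    exact hC2 ℤ inferInstance _ _ (hB2.1 S)
  · have h1 : ifn (redL S) = pfn (redL S).1.length (cst (lagr (conSys S))) := rfl
    rw [h1, hB1.2.2.2.1, hB2.2 S, hC3 hC1 _ _ hd]
    have h2 : (redL S).1.length = ((conSys S).map cst).length + (H612.varsOf S).length := by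
      rw [hlen, List.length_map]
    rw [h2]

include hB1 hB3 hB4 hB7 hB9 hD1 hD2 hD3 hD4 hD5 hD6 hD7 in
theorem sop_inER : InER (lang fun P : Inst => IsDeg 4 P ∧ HasSOP (ifn P)) := by
  refine inER_of (hB4.1 4) (hB4.2 4) (hB7 hB9) fun P hP => ?_
  have h1 : Deg 4 P.1.length (cst P.2) := (hB1.2.2.2.2 _ _ _).2 hP
  have h2 : HasSOP (ifn P) ↔ Solv (P.1.length + P.1.length * P.1.length)
      (sopSys P.1.length (cst P.2)) := hD6 hD1 hD2 hD3 hD4 hD5 _ _ h1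
  rw [h2, ← hB1.1]
  exact hB3 _ _ fun q hq => (hD7 hD2 ℤ inferInstance _ _).1 hP q hq

include hB1 hB3 hB4 hB8 hB9 hD1 hD2 hD3 hD7 in
theorem crit_inER : InER (lang fun P : Inst => IsDeg 3 P ∧ HasCrit (ifn P)) := by
  refine inER_of (hB4.1 3) (hB4.2 3) (hB8 hB9) fun P hP => ?_
  have h1 : Deg 3 P.1.length (cst P.2) := (hB1.2.2.2.2 _ _ _).2 hP
  have h2 : HasCrit (ifn P) ↔ Solv P.1.length (critSys P.1.length (cst P.2)) :=
    hasCrit_iff hD1 hD3 h1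
  rw [h2, ← hB1.2.1]
  refine hB3 _ _ fun q hq => ?_
  have h3 := (hD7 hD2 ℤ inferInstance _ _).2 hP q hq
  exact fun t ht => ⟨(h3 t ht).1.trans (by norm_num), (h3 t ht).2⟩

/-- instances whose function is nonnegative with infimum zero -/
def InfZero (P : Inst) : Prop :=
  IsDeg 4 P ∧ (∀ z, 0 ≤ ifn P z) ∧ ∀ ε : ℝ, 0 < ε → ∃ z, ifn P z < ε

include hB1 hB2 hH1 hH2 hH3 hH4 hH5 hH6 hH7 hH8 hH9 hH10 hH11 hH12 hD9 hB0 hB5 in
theorem between_hard (Q : Inst → Prop) (h1 : ∀ P, InfZero P → Attains (ifn P) → Q P)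
    (h2 : ∀ P, InfZero P → Q P → HasSOP (ifn P)) : H612.ERHardWithin InfZero Q := by
  have hs := redQ_spec hH1 hH2 hH3 hH4 hH5 hH6 hH7 hH8 hH9 hH10 hH11 hH12 hD9 hB1 hB2
  refine H612.ERHardWithin.of_sys (hB5 hB0) (fun S => ?_) fun S => ?_
  · obtain ⟨a, b, c, _⟩ := hs S
    exact ⟨a, b, c⟩
  · obtain ⟨a, b, c, h⟩ := hs S
    exact ⟨fun h' => h1 _ ⟨a, b, c⟩ ((h.out 0 1).1 h'), fun h' => (h.out 0 3).2 (h2 _ ⟨a, b, c⟩ h')⟩

end Boolean

end Pool.Agent.NPC.H695OPT
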