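import Pool.Agent.H695R3.OPT.Tasks

/-! Task `B0`: integer multiplication is polynomial. -/

namespace Pool.Agent.NPC.H695OPT

open Pool.Agent.NPC.ER Pool.Agent.H625R2 Pool.Agent.NPC.ER.Tens Pool.Agent.NPC.H670R2

theorem B0_int (x y : ℤ) :
    (if decide (decide (x < 0) = decide (y < 0)) = true then
      ((x.natAbs * y.natAbs : ℕ) : ℤ) else -((x.natAbs * y.natAbs : ℕ) : ℤ)) = x * y := by
  rcases lt_or_ge x 0 with hx | hx <;> rcases lt_or_ge y 0 with hy | hy
  · obtain ⟨a, ha⟩ := Int.eq_ofNat_of_zero_le (by omega : 0 ≤ -x)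
    obtain ⟨b, hb⟩ := Int.eq_ofNat_of_zero_le (by omega : 0 ≤ -y)
    obtain rfl : x = -(a : ℤ) := by omega
    obtain rfl : y = -(b : ℤ) := by omega
    simp only [hx, hy, Int.natAbs_neg, Int.natAbs_natCast]
    push_cast
    simp
  · obtain ⟨a, ha⟩ := Int.eq_ofNat_of_zero_le (by omega : 0 ≤ -x)
    obtain ⟨b, rfl⟩ := Int.eq_ofNat_of_zero_le hy
    obtain rfl : x = -(a : ℤ) := by omega
    simp only [hx, not_lt.2 hy, Int.natAbs_neg, Int.natAbs_natCast]
    push_cast
    simp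
  · obtain ⟨a, rfl⟩ := Int.eq_ofNat_of_zero_le hx
    obtain ⟨b, hb⟩ := Int.eq_ofNat_of_zero_le (by omega : 0 ≤ -y)
    obtain rfl : y = -(b : ℤ) := by omega
    simp only [hy, not_lt.2 hx, Int.natAbs_neg, Int.natAbs_natCast]
    push_cast
    simp
  · obtain ⟨a, rfl⟩ := Int.eq_ofNat_of_zero_le hx
    obtain ⟨b, rfl⟩ := Int.eq_ofNat_of_zero_le hy
    simp only [not_lt.2 hy, not_lt.2 hx, Int.natAbs_natCast]
    push_cast
    simp

theorem B0 : S_B0 := by
  intro α _ m n hm hn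
  have hs : Poly fun a => decide (decide (m a < 0) = decide (n a < 0)) :=
    Poly.decide_eq (poly_isNeg hm) (poly_isNeg hn)
  have hp : Poly fun a => (m a).natAbs * (n a).natAbs := Poly.mul (poly_natAbs hm) (poly_natAbs hn)
  refine (Poly.ite hs (poly_natInt hp) (Pool.Agent.NPC.H549CV.poly_natNegInt hp)).congr
    fun a => ?_
  refine Eq.trans ?_ (B0_int (m a) (n a))
  congr 1
  exact propext decide_eq_true_iff.symm

end Pool.Agent.NPC.H695OPT
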