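import Pool.Agent.H695R3.OPT.Tasks

/-! Casting commutes with the constructions. -/

namespace Pool.Agent.NPC.H695OPT

open Pool.Agent.NPC.ER

theorem B1_flatMap {α : Type} (l : List α) (f : α → Pol ℤ) :
    cst (l.flatMap f) = l.flatMap fun a => cst (f a) := by
  unfold cst; rw [List.map_flatMap]

theorem B1_append (p q : Pol ℤ) : cst (p ++ q) = cst p ++ cst q := by
  unfold cst; rw [List.map_append]

theorem B1_pd (i : ℕ) (p : Pol ℤ) : cst (pd i p) = pd i (cst p) := by
  unfold pd cst
  rw [List.map_flatMap, List.flatMap_map]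
  congr 1
  funext t
  rw [List.map_map]
  rfl

theorem B1_hom (q : Pol ℤ) : cst (q.map homT) = (cst q).map homT := by
  unfold cst
  rw [List.map_map, List.map_map]
  rfl

theorem B1_sq (q : Pol ℤ) : cst (sqL q) = sqL (cst q) := by
  unfold sqL
  rw [B1_flatMap]
  unfold cst
  rw [List.flatMap_map]
  congr 1
  funext m
  rw [List.map_map, List.map_map]
  refine List.map_congr_left fun m' _ => ?_
  simp

theorem B1_sop (n : ℕ) (p : Pol ℤ) : (sopSys n p).map cst = sopSys n (cst p) := by
  unfold sopSys critSys
  rw [List.map_append, List.map_flatMap, List.map_map]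
  congr 1
  · refine List.map_congr_left fun i _ => ?_
    exact B1_pd i p
  · congr 1
    funext i
    rw [List.map_map]
    refine List.map_congr_left fun j _ => ?_
    simp only [Function.comp]
    rw [B1_append, B1_append, B1_pd, B1_pd, B1_pd, B1_pd]
    congr 2
    unfold cst
    rw [List.map_map]
    refine List.map_congr_left fun k _ => ?_
    simp

theorem B1_quart (S : List (Pol ℤ)) : cst (quart S) = quart (S.map cst) := by
  have h : cst (quart S) = ((1 : ℝ), [0, 0, 1, 1]) :: (-2, [0, 1]) :: (1, []) ::
      cst (S.flatMap fun q => sqL (q.map homT)) := by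
    unfold quart cst
    simp
  rw [h, B1_flatMap]
  unfold quart
  rw [List.flatMap_map]
  congr 4
  funext q
  rw [B1_sq, B1_hom]

theorem B1_lagr (S : List (Pol ℤ)) : cst (lagr S) = lagr (S.map cst) := by
  unfold lagr
  rw [B1_flatMap, List.length_map]
  congr 1
  funext a
  have h : (S.map cst).getD a [] = cst (S.getD a []) := by
    simp only [List.getD_eq_getElem?_getD, List.getElem?_map]
    cases S[a]? <;> rfl
  rw [h]
  unfold cst
  rw [List.map_map, List.map_map]
  rfl

theorem B1_deg (d n : ℕ) (p : Pol ℤ) : Deg d n (cst p) ↔ Deg d n p := by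
  unfold Deg cst
  constructor
  · intro h t ht
    exact h ((t.1 : ℝ), t.2) (List.mem_map.2 ⟨t, ht, rfl⟩)
  · intro h t ht
    obtain ⟨s, hs, rfl⟩ := List.mem_map.1 ht
    exact h s hs

theorem B1 : S_B1 := by
  refine ⟨B1_sop, ?_, B1_quart, B1_lagr, B1_deg⟩
  intro n p
  unfold critSys
  rw [List.map_map]
  refine List.map_congr_left fun i _ => ?_
  exact B1_pd i p

end Pool.Agent.NPC.H695OPT
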