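import Pool.Agent.H695R3.OPT.Tasks

/-! B2: constraints = quadratic system. -/

namespace Pool.Agent.NPC.H695OPT

open Pool.Agent.NPC.ER

theorem B2_val (V : List ℕ) (c : Con) (y : ℕ → ℝ) :
    pv (cst (conQ V c)) y = 0 ↔ Con.Holds (fun i => y (V.idxOf i)) c := by
  cases c with
  | one i =>
    simp only [conQ, cst, List.map_cons, List.map_nil, pv, List.prod_cons, List.prod_nil,
      List.sum_cons, List.sum_nil, Con.Holds]
    push_cast
    constructor
    · intro h; linarith
    · intro h; rw [h]; ring
  | add i j k =>
    simp only [conQ, cst, List.map_cons, List.map_nil, pv, List.prod_cons, List.prod_nil,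
      List.sum_cons, List.sum_nil, Con.Holds]
    push_cast
    constructor
    · intro h; linarith
    · intro h; linarith
  | mul i j k =>
    simp only [conQ, cst, List.map_cons, List.map_nil, pv, List.prod_cons, List.prod_nil,
      List.sum_cons, List.sum_nil, Con.Holds]
    push_cast
    constructor
    · intro h; linarith
    · intro h; linarith

theorem B2_congr (c : Con) {v w : ℕ → ℝ} (h : ∀ i ∈ c.vars, v i = w i) (hv : Con.Holds v c) :
    Con.Holds w c := by
  cases c with
  | one i =>
    simp only [Con.Holds] at hv ⊢
    rw [← h i (by simp [Con.vars])]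
    exact hv
  | add i j k =>
    simp only [Con.Holds] at hv ⊢
    rw [← h i (by simp [Con.vars]), ← h j (by simp [Con.vars]), ← h k (by simp [Con.vars])]
    exact hv
  | mul i j k =>
    simp only [Con.Holds] at hv ⊢
    rw [← h i (by simp [Con.vars]), ← h j (by simp [Con.vars]), ← h k (by simp [Con.vars])]
    exact hv

theorem B2_deg (V : List ℕ) (c : Con) (h : ∀ i ∈ c.vars, V.idxOf i < V.length) :
    Deg 2 V.length (conQ V c) := by
  cases c with
  | one i =>
    have h1 := h i (by simp [Con.vars])
    intro t ht
    simp only [conQ, List.mem_cons, List.not_mem_nil, or_false] at ht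
    rcases ht with rfl | rfl
    · refine ⟨by simp, fun j hj => ?_⟩
      simp only [List.mem_cons, List.not_mem_nil, or_false] at hj
      rw [hj]; exact h1
    · exact ⟨by simp, fun j hj => by simp at hj⟩
  | add i j k =>
    have h1 := h i (by simp [Con.vars])
    have h2 := h j (by simp [Con.vars])
    have h3 := h k (by simp [Con.vars])
    intro t ht
    simp only [conQ, List.mem_cons, List.not_mem_nil, or_false] at ht
    rcases ht with rfl | rfl | rfl
    · refine ⟨by simp, fun l hl => ?_⟩
      simp only [List.mem_cons, List.not_mem_nil, or_false] at hl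
      rw [hl]; exact h1
    · refine ⟨by simp, fun l hl => ?_⟩
      simp only [List.mem_cons, List.not_mem_nil, or_false] at hl
      rw [hl]; exact h2
    · refine ⟨by simp, fun l hl => ?_⟩
      simp only [List.mem_cons, List.not_mem_nil, or_false] at hl
      rw [hl]; exact h3
  | mul i j k =>
    have h1 := h i (by simp [Con.vars])
    have h2 := h j (by simp [Con.vars])
    have h3 := h k (by simp [Con.vars])
    intro t ht
    simp only [conQ, List.mem_cons, List.not_mem_nil, or_false] at ht
    rcases ht with rfl | rfl
    · refine ⟨by simp, fun l hl => ?_⟩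
      simp only [List.mem_cons, List.not_mem_nil, or_false] at hl
      rcases hl with rfl | rfl
      · exact h1
      · exact h2
    · refine ⟨by simp, fun l hl => ?_⟩
      simp only [List.mem_cons, List.not_mem_nil, or_false] at hl
      rw [hl]; exact h3

theorem B2_idx (S : List Con) (c : Con) (hc : c ∈ S) (i : ℕ) (hi : i ∈ c.vars) :
    (H612.varsOf S).idxOf i < (H612.varsOf S).length :=
  List.idxOf_lt_length_iff.mpr (List.mem_flatMap.2 ⟨c, hc, hi⟩)

theorem B2 : S_B2 := by
  refine ⟨?_, ?_⟩
  · intro S q hq
    obtain ⟨c, hc, rfl⟩ := List.mem_map.1 hq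
    exact B2_deg _ c (fun i hi => B2_idx S c hc i hi)
  · intro S
    set V := H612.varsOf S with hV
    constructor
    · rintro ⟨v, hv⟩
      refine ⟨fun i => v (V.getD i 0), ?_⟩
      intro q hq
      obtain ⟨q', hq', rfl⟩ := List.mem_map.1 hq
      obtain ⟨c, hc, rfl⟩ := List.mem_map.1 hq'
      show pv (cst (conQ V c)) _ = 0
      rw [B2_val]
      refine B2_congr c (fun i hi => ?_) (hv c hc)
      have h1 : V.idxOf i < V.length := B2_idx S c hc i hi
      rw [xt_of_lt _ h1]
      show v i = v (V.getD (V.idxOf i) 0)
      rw [List.getD_eq_getElem _ _ h1, List.getElem_idxOf]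
    · rintro ⟨x, hx⟩
      refine ⟨fun i => xt x (V.idxOf i), ?_⟩
      intro c hc
      have h1 := hx (cst (conQ V c)) (List.mem_map.2 ⟨_, List.mem_map.2 ⟨c, hc, rfl⟩, rfl⟩)
      exact (B2_val V c (xt x)).mp h1

end Pool.Agent.NPC.H695OPT
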