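import Pool.Agent.H695R3.OPT.Tasks

/-! Task B3 (helper616): the formula of a system. -/

namespace Pool.Agent.NPC.H695OPT

open Pool.Agent.NPC.ER

theorem B3_holds (S : List (Pol ℤ)) (x : ℕ → ℝ) :
    (sysFm S).Holds x ↔ ∀ q ∈ S, pv (cst q) x = 0 := by
  unfold sysFm
  rw [H670R2.holds_conj]
  have key : ∀ q : Pol ℤ, (H549CV.evT q Tm.var).eval x = pv (cst q) x := by
    intro q
    rw [H549CV.eval_evT]
    unfold H549CV.pev pv cst
    rw [List.map_map]
    rfl
  constructor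
  · intro h q hq
    have h1 := h _ (List.mem_map.2 ⟨q, hq, rfl⟩)
    change (H549CV.evT q Tm.var).eval x = (0 : ℝ) at h1
    rwa [key] at h1
  · intro h φ hφ
    obtain ⟨q, hq, rfl⟩ := List.mem_map.1 hφ
    change (H549CV.evT q Tm.var).eval x = (0 : ℝ)
    rw [key]
    exact h q hq

theorem B3_deg {d n : ℕ} {q : Pol ℤ} (h : Deg d n q) : Deg d n (cst q) := by
  intro t ht
  obtain ⟨s, hs, rfl⟩ := List.mem_map.1 ht
  exact h s hs

theorem B3 : S_B3 := by
  intro n S hS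
  constructor
  · rintro ⟨x, hx⟩
    refine ⟨xt x, (B3_holds S _).2 fun q hq => ?_⟩
    exact hx (cst q) (List.mem_map.2 ⟨q, hq, rfl⟩)
  · rintro ⟨y, hy⟩
    rw [B3_holds] at hy
    refine ⟨fun i => y i, fun q hq => ?_⟩
    obtain ⟨p, hp, rfl⟩ := List.mem_map.1 hq
    rw [pfn_restrict (B3_deg (hS p hp))]
    exact hy p hp

end Pool.Agent.NPC.H695OPT
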