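import Pool.Agent.H695R3.OPT.Tasks

/-! Task B4 (helper855): test for the degree. -/

namespace Pool.Agent.NPC.H695OPT

open Pool.Agent.H625R2 Pool.Agent.NPC.ER Pool.Agent.NPC.ER.Tens Pool.Agent.NPC.H670R2

theorem B4_iff (d : ℕ) (P : Inst) : degB d P = true ↔ IsDeg d P := by
  unfold degB IsDeg Deg
  simp [List.all_eq_true]

theorem B4_poly (d : ℕ) : Poly (degB d) := by
  refine Poly.all (p := fun (P : Inst) (t : ℤ × List ℕ) =>
    decide (t.2.length ≤ d) && t.2.all fun i => decide (i < P.1.length)) (Poly.snd Poly.id) ?_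
  refine Poly.and (Poly.decide_le (Poly.length (Poly.snd (Poly.snd Poly.id))) (Poly.const d)) ?_
  exact Poly.all (p := fun (x : Inst × (ℤ × List ℕ)) (i : ℕ) => decide (i < x.1.1.length))
    (Poly.snd (Poly.snd Poly.id))
    (Poly.decide_lt (Poly.snd Poly.id) (Poly.length (Poly.fst (Poly.fst (Poly.fst Poly.id)))))

theorem B4 : S_B4 := ⟨B4_iff, B4_poly⟩

end Pool.Agent.NPC.H695OPT
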