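import Pool.Agent.H695R3.OPT.Tasks

/-! Task B5: `redQ` is computable in polynomial time. -/

namespace Pool.Agent.NPC.H695OPT

open Pool.Agent.NPC.ER

section

variable {α : Type} [TEnc α]

theorem B5_conQ_eq (V : List ℕ) (c : Con) : conQ V c =
    if c.code.1 = 0 then [((1 : ℤ), [V.idxOf c.code.2.1]), (-1, [])]
    else if c.code.1 = 1 then [(1, [V.idxOf c.code.2.1]), (1, [V.idxOf c.code.2.2.1]),
      (-1, [V.idxOf c.code.2.2.2])]
    else [(1, [V.idxOf c.code.2.1, V.idxOf c.code.2.2.1]), (-1, [V.idxOf c.code.2.2.2])] := by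
  cases c <;> rfl

theorem B5_conQ {V : α → List ℕ} {c : α → Con} (hV : Poly V) (hc : Poly c) :
    Poly (fun a => conQ (V a) (c a)) := by
  have h := poly_con_code hc
  have h1 := H612.poly_idxOf hV (Poly.fst (Poly.snd h))
  have h2 := H612.poly_idxOf hV (Poly.fst (Poly.snd (Poly.snd h)))
  have h3 := H612.poly_idxOf hV (Poly.snd (Poly.snd (Poly.snd h)))
  have l1 : ∀ {x : α → ℕ}, Poly x → Poly (fun a => [x a]) := fun hx =>
    Poly.cons hx (Poly.const [])
  have l2 : ∀ {x y : α → ℕ}, Poly x → Poly y → Poly (fun a => [x a, y a]) := fun hx hy =>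
    Poly.cons hx (Poly.cons hy (Poly.const []))
  refine (Poly.ite (Poly.decide_eq (Poly.fst h) (Poly.const 0))
    (Poly.cons (Poly.pair (Poly.const (1 : ℤ)) (l1 h1)) (Poly.const [((-1 : ℤ), [])]))
    (Poly.ite (Poly.decide_eq (Poly.fst h) (Poly.const 1))
      (Poly.cons (Poly.pair (Poly.const (1 : ℤ)) (l1 h1))
        (Poly.cons (Poly.pair (Poly.const (1 : ℤ)) (l1 h2))
          (Poly.cons (Poly.pair (Poly.const (-1 : ℤ)) (l1 h3)) (Poly.const []))))
      (Poly.cons (Poly.pair (Poly.const (1 : ℤ)) (l2 h1 h2))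
        (Poly.cons (Poly.pair (Poly.const (-1 : ℤ)) (l1 h3))
          (Poly.const []))))).congr fun a => ?_
  exact (B5_conQ_eq (V a) (c a)).symm

theorem B5_conSys {S : α → List Con} (hS : Poly S) : Poly (fun a => conSys (S a)) := by
  unfold conSys
  exact Poly.map (F := fun a c => conQ (H612.varsOf (S a)) c) hS
    (B5_conQ ((H612.poly_varsOf hS).comp (Poly.fst Poly.id)) (Poly.snd Poly.id))

theorem B5_rep (l : List ℕ) : List.replicate (2 - l.length) 0 =
    if l.isEmpty = true then [0, 0] else if l.tail.isEmpty = true then [0] else [] := by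
  rcases l with _ | ⟨a, _ | ⟨b, l⟩⟩ <;> simp

theorem B5_homT {t : α → ℤ × List ℕ} (ht : Poly t) : Poly (fun a => homT (t a)) := by
  unfold homT
  refine Poly.pair (Poly.fst ht) (Poly.append (Poly.map (F := fun _ i => i + 2) (Poly.snd ht)
    (Poly.add (Poly.snd Poly.id) (Poly.const 2))) ?_)
  refine (Poly.ite (Poly.decide_bool (Poly.isEmpty (Poly.snd ht))) (Poly.const [0, 0])
    (Poly.ite (Poly.decide_bool (Poly.isEmpty (Poly.tail (Poly.snd ht)))) (Poly.const [0])
      (Poly.const []))).congr fun a => ?_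
  exact (B5_rep (t a).2).symm

theorem B5_sqL (hM : S_B0) {q : α → Pol ℤ} (hq : Poly q) : Poly (fun a => sqL (q a)) := by
  unfold sqL
  refine Poly.flatMap
    (F := fun a m => (q a).map fun m' => (m.1 * m'.1, m.2 ++ m'.2)) hq ?_
  refine Poly.map
    (F := fun (x : α × ℤ × List ℕ) m' => (x.2.1 * m'.1, x.2.2 ++ m'.2))
    (hq.comp (Poly.fst Poly.id)) ?_
  exact Poly.pair (hM _ _ _ _ (Poly.fst (Poly.snd (Poly.fst Poly.id)))
    (Poly.fst (Poly.snd Poly.id)))
    (Poly.append (Poly.snd (Poly.snd (Poly.fst Poly.id))) (Poly.snd (Poly.snd Poly.id)))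

theorem B5_quart (hM : S_B0) {S : α → List (Pol ℤ)} (hS : Poly S) :
    Poly (fun a => quart (S a)) := by
  unfold quart
  refine Poly.cons (Poly.const _) (Poly.cons (Poly.const _) (Poly.cons (Poly.const _)
    (Poly.flatMap (F := fun _ q => sqL (q.map homT)) hS ?_)))
  exact B5_sqL hM (Poly.map (F := fun _ t => homT t) (Poly.snd Poly.id)
    (B5_homT (Poly.snd Poly.id)))

end

theorem B5 : S_B5 := by
  intro hM
  unfold redQ
  refine Poly.pair ?_ (B5_quart hM (B5_conSys Poly.id))
  refine (H670R2.poly_replicate (l := fun S => 0 :: 0 :: H612.varsOf S)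
    (Poly.cons (Poly.const 0) (Poly.cons (Poly.const 0) (H612.poly_varsOf Poly.id)))
    true).congr fun S => ?_
  rfl

end Pool.Agent.NPC.H695OPT
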