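import Pool.Agent.H695R3.OPT.B5

/-! Task B6: `redL` is computable in polynomial time. -/

namespace Pool.Agent.NPC.H695OPT

open Pool.Agent.NPC.ER

section

variable {α : Type} [TEnc α]

theorem B6_lagr {S : α → List (Pol ℤ)} (hS : Poly S) : Poly (fun a => lagr (S a)) := by
  unfold lagr
  refine Poly.flatMap (F := fun a i => ((S a).getD i []).map fun t =>
    (t.1, i :: t.2.map fun j => j + (S a).length)) (UPoly.length hS).range ?_
  refine Poly.map (F := fun (x : α × ℕ) (t : ℤ × List ℕ) =>
    (t.1, x.2 :: t.2.map fun j => j + (S x.1).length))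
    (Poly.getD (d := fun _ => []) (hS.comp (Poly.fst Poly.id)) (Poly.snd Poly.id)
      (Poly.const _)) ?_
  refine Poly.pair (Poly.fst (Poly.snd Poly.id)) (Poly.cons (Poly.snd (Poly.fst Poly.id)) ?_)
  refine Poly.map (F := fun (y : (α × ℕ) × (ℤ × List ℕ)) (j : ℕ) => j + (S y.1.1).length)
    (Poly.snd (Poly.snd Poly.id)) ?_
  exact Poly.add (Poly.snd Poly.id) (UPoly.toPoly (UPoly.length
    (hS.comp (Poly.fst (Poly.fst (Poly.fst Poly.id))))))

end

theorem B6 : S_B6 := by
  unfold S_B6 redL
  refine Poly.pair ?_ (B6_lagr (B5_conSys Poly.id))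
  refine (Poly.append (H670R2.poly_replicate (l := fun S => conSys S)
    (B5_conSys Poly.id) true) (H670R2.poly_replicate (l := fun S => H612.varsOf S)
    (H612.poly_varsOf Poly.id) true)).congr fun S => ?_
  exact (List.replicate_add _ _ _).symm

end Pool.Agent.NPC.H695OPT
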