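import Pool.Agent.H695R3.OPT.Tasks

/-! # B7: the formula for second-order points is computable in polynomial time -/

namespace Pool.Agent.NPC.H695OPT

open Pool.Agent.NPC.ER Pool.Agent.NPC.H670R2

theorem B7_pd (h9 : S_B9) {α : Type} [TEnc α] {i : α → ℕ} {p : α → Pol ℤ} (hi : Poly i)
    (hp : Poly p) : Poly (fun a => pd (i a) (p a)) := by
  refine Poly.flatMap (F := fun (a : α) (t : ℤ × List ℕ) =>
    ((List.range t.2.length).filter fun k => decide (t.2.getD k 0 = i a)).map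
      fun k => (t.1, t.2.eraseIdx k)) hp ?_
  refine Poly.map (F := fun (y : α × (ℤ × List ℕ)) (k : ℕ) => (y.2.1, y.2.2.eraseIdx k)) ?_ ?_
  · refine Poly.filter (p := fun (y : α × (ℤ × List ℕ)) (k : ℕ) =>
      decide (y.2.2.getD k 0 = i y.1)) (UPoly.length (Poly.snd (Poly.snd Poly.id))).range ?_
    exact Poly.decide_eq (Poly.getD (d := fun _ => 0) (Poly.snd (Poly.snd (Poly.fst Poly.id)))
      (Poly.snd Poly.id) (Poly.const _)) (hi.comp (Poly.fst (Poly.fst Poly.id)))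
  · exact Poly.pair (Poly.fst (Poly.snd (Poly.fst Poly.id)))
      (h9 _ _ _ _ (Poly.snd (Poly.snd (Poly.fst Poly.id))) (Poly.snd Poly.id))

theorem B7_crit (h9 : S_B9) {α : Type} [TEnc α] {n : α → ℕ} {p : α → Pol ℤ} (hn : UPoly n)
    (hp : Poly p) : Poly (fun a => critSys (n a) (p a)) :=
  Poly.map (F := fun (a : α) (i : ℕ) => pd i (p a)) hn.range
    (B7_pd h9 (Poly.snd Poly.id) (hp.comp (Poly.fst Poly.id)))

theorem B7_sop (h9 : S_B9) {α : Type} [TEnc α] {n : α → ℕ} {p : α → Pol ℤ} (hn : UPoly n)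
    (hp : Poly p) : Poly (fun a => sopSys (n a) (p a)) := by
  refine Poly.append (B7_crit h9 hn hp) ?_
  refine Poly.flatMap (F := fun (a : α) (i : ℕ) => (List.range (n a)).map fun j =>
    pd i (pd j (p a)) ++ (pd j (pd i (p a)) ++
      (List.range (n a)).map fun k => ((-2 : ℤ), [n a + (i * n a + k), n a + (j * n a + k)])))
    hn.range ?_
  refine Poly.map (F := fun (y : α × ℕ) (j : ℕ) =>
    pd y.2 (pd j (p y.1)) ++ (pd j (pd y.2 (p y.1)) ++
      (List.range (n y.1)).map fun k =>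
        ((-2 : ℤ), [n y.1 + (y.2 * n y.1 + k), n y.1 + (j * n y.1 + k)])))
    (hn.comp (Poly.fst Poly.id)).range ?_
  have hp' : Poly (fun z : (α × ℕ) × ℕ => p z.1.1) := hp.comp (Poly.fst (Poly.fst Poly.id))
  have hi' : Poly (fun z : (α × ℕ) × ℕ => z.1.2) := Poly.snd (Poly.fst Poly.id)
  have hj' : Poly (fun z : (α × ℕ) × ℕ => z.2) := Poly.snd Poly.id
  have hn' : UPoly (fun z : (α × ℕ) × ℕ => n z.1.1) := hn.comp (Poly.fst (Poly.fst Poly.id))
  refine Poly.append (B7_pd h9 hi' (B7_pd h9 hj' hp')) (Poly.append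
    (B7_pd h9 hj' (B7_pd h9 hi' hp')) ?_)
  refine Poly.map (F := fun (z : (α × ℕ) × ℕ) (k : ℕ) =>
    ((-2 : ℤ), [n z.1.1 + (z.1.2 * n z.1.1 + k), n z.1.1 + (z.2 * n z.1.1 + k)])) hn'.range ?_
  have hn'' : Poly (fun w : ((α × ℕ) × ℕ) × ℕ => n w.1.1.1) :=
    hn'.toPoly.comp (Poly.fst Poly.id)
  have hi'' : Poly (fun w : ((α × ℕ) × ℕ) × ℕ => w.1.1.2) := hi'.comp (Poly.fst Poly.id)
  have hj'' : Poly (fun w : ((α × ℕ) × ℕ) × ℕ => w.1.2) := hj'.comp (Poly.fst Poly.id)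
  have hk'' : Poly (fun w : ((α × ℕ) × ℕ) × ℕ => w.2) := Poly.snd Poly.id
  exact Poly.pair (Poly.const _) (Poly.cons
    (Poly.add hn'' (Poly.add (Poly.mul hi'' hn'') hk'')) (Poly.cons
    (Poly.add hn'' (Poly.add (Poly.mul hj'' hn'') hk'')) (Poly.const [])))

theorem B7_sysFm {α : Type} [TEnc α] {S : α → List (Pol ℤ)} (hS : Poly S) :
    Poly (fun a => sysFm (S a)) :=
  poly_conj (Poly.map (F := fun (_ : α) (q : Pol ℤ) => Fm.eq (H549CV.evT q Tm.var) Tm.zero) hS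
    (poly_eq (H549CV.evT_poly (Poly.snd Poly.id) (poly_tvar Poly.id)) (Poly.const _)))

theorem B7 : S_B7 := by
  intro h9
  exact B7_sysFm (B7_sop h9 (UPoly.length (Poly.fst Poly.id)) (Poly.snd Poly.id))

end Pool.Agent.NPC.H695OPT
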