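import Pool.Agent.H695R3.OPT.Tasks

/-! The formula for critical points is computable in polynomial time. -/

namespace Pool.Agent.NPC.H695OPT

open Pool.Agent.NPC.ER

theorem B8_pd (h9 : S_B9) {α : Type} [TEnc α] {i : α → ℕ} {p : α → Pol ℤ} (hi : Poly i)
    (hp : Poly p) : Poly (fun a => pd (i a) (p a)) := by
  refine Poly.flatMap (F := fun (a : α) (t : ℤ × List ℕ) =>
    ((List.range t.2.length).filter fun k => decide (t.2.getD k 0 = i a)).map
      fun k => (t.1, t.2.eraseIdx k)) hp ?_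
  have hl : Poly (fun y : α × (ℤ × List ℕ) => y.2.2) := Poly.snd (Poly.snd Poly.id)
  have hc : Poly (fun y : α × (ℤ × List ℕ) => y.2.1) := Poly.fst (Poly.snd Poly.id)
  refine Poly.map (F := fun (y : α × (ℤ × List ℕ)) (k : ℕ) => (y.2.1, y.2.2.eraseIdx k)) ?_ ?_
  · refine Poly.filter (p := fun (y : α × (ℤ × List ℕ)) (k : ℕ) =>
      decide (y.2.2.getD k 0 = i y.1)) (UPoly.length hl).range ?_
    exact Poly.decide_eq (Poly.getD (d := fun _ => 0) (hl.comp (Poly.fst Poly.id))
      (Poly.snd Poly.id) (Poly.const _)) (hi.comp (Poly.fst (Poly.fst Poly.id)))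
  · exact Poly.pair (hc.comp (Poly.fst Poly.id))
      (h9 _ _ (fun z : (α × (ℤ × List ℕ)) × ℕ => z.1.2.2) (fun z => z.2)
        (hl.comp (Poly.fst Poly.id)) (Poly.snd Poly.id))

theorem B8 : S_B8 := by
  intro h9
  have h1 : Poly (fun P : Inst => critSys P.1.length P.2) := by
    refine Poly.map (F := fun (P : Inst) (i : ℕ) => pd i P.2)
      (UPoly.length (Poly.fst Poly.id)).range ?_
    exact B8_pd h9 (Poly.snd Poly.id) (Poly.snd (Poly.fst Poly.id))
  refine H670R2.poly_conj (Poly.map (F := fun (_ : Inst) (q : Pol ℤ) =>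
    Fm.eq (H549CV.evT q Tm.var) Tm.zero) h1 ?_)
  exact H670R2.poly_eq (H549CV.evT_poly (Poly.snd Poly.id) (H670R2.poly_tvar Poly.id))
    (Poly.const _)

end Pool.Agent.NPC.H695OPT
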