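import Pool.Agent.H695R3.OPT.Tasks

namespace Pool.Agent.NPC.H695OPT

open Pool.Agent.NPC.ER

theorem B9_id (l : List ℕ) : (List.range l.length).map (fun i => l.getD i 0) = l := by
  induction l with
  | nil => rfl
  | cons a l ih =>
    rw [List.length_cons, List.range_succ_eq_map, List.map_cons, List.map_map]
    have h1 : ((fun i => (a :: l).getD i 0) ∘ Nat.succ) = fun i => l.getD i 0 := by
      funext i
      rfl
    rw [h1, ih]
    rfl

theorem B9_eq (l : List ℕ) : ∀ k : ℕ, ((List.range l.length).filter
    (fun i => !decide (i = k))).map (fun i => l.getD i 0) = l.eraseIdx k := by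
  induction l with
  | nil => intro k; rfl
  | cons a l ih =>
    intro k
    rw [List.length_cons, List.range_succ_eq_map]
    have h1 : ((fun i => (a :: l).getD i 0) ∘ Nat.succ) = fun i => l.getD i 0 := by
      funext i
      rfl
    cases k with
    | zero =>
      rw [List.filter_cons_of_neg (by simp), List.filter_map, List.map_map, h1]
      have h2 : ((fun i => !decide (i = 0)) ∘ Nat.succ) = fun _ : ℕ => true := by
        funext i
        simp
      rw [h2, List.filter_true, B9_id]
      rfl
    | succ k =>
      rw [List.filter_cons_of_pos (by simp), List.map_cons, List.filter_map, List.map_map, h1]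
      have h2 : ((fun i => !decide (i = k + 1)) ∘ Nat.succ) = fun i : ℕ => !decide (i = k) := by
        funext i
        simp
      rw [h2, ih k]
      rfl

theorem B9 : S_B9 := by
  intro α _ l k hl hk
  refine (Pool.Agent.NPC.Poly.map (F := fun (a : α) (i : ℕ) => (l a).getD i 0)
    (Pool.Agent.NPC.Poly.filter (p := fun (a : α) (i : ℕ) => !decide (i = k a))
      (Pool.Agent.NPC.Poly.range_length hl)
      (Pool.Agent.NPC.Poly.not (Pool.Agent.NPC.Poly.decide_eq
        (Pool.Agent.NPC.Poly.snd Pool.Agent.NPC.Poly.id)
        (hk.comp (Pool.Agent.NPC.Poly.fst Pool.Agent.NPC.Poly.id)))))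
    (Pool.Agent.NPC.Poly.getD (hl.comp (Pool.Agent.NPC.Poly.fst Pool.Agent.NPC.Poly.id))
      (Pool.Agent.NPC.Poly.snd Pool.Agent.NPC.Poly.id)
      (Pool.Agent.NPC.Poly.const 0))).congr fun a => ?_
  exact B9_eq (l a) (k a)

end Pool.Agent.NPC.H695OPT
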