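import Pool.Agent.H695R3.OPT.Defs

/-! Basic lemmas on values of polynomials given as lists of terms. -/

namespace Pool.Agent.NPC.H695OPT

open Pool.Agent.NPC.ER

theorem pv_nil (x : ℕ → ℝ) : pv [] x = 0 := rfl

theorem pv_cons (t : ℝ × List ℕ) (p : Pol ℝ) (x : ℕ → ℝ) :
    pv (t :: p) x = t.1 * (t.2.map x).prod + pv p x := by
  simp [pv]

theorem pv_append (p q : Pol ℝ) (x : ℕ → ℝ) : pv (p ++ q) x = pv p x + pv q x := by
  simp [pv]

theorem pv_flatMap {α : Type} (l : List α) (f : α → Pol ℝ) (x : ℕ → ℝ) :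
    pv (l.flatMap f) x = (l.map fun a => pv (f a) x).sum := by
  induction l with
  | nil => rfl
  | cons a l ih => rw [List.flatMap_cons, pv_append, ih]; rfl

theorem pv_congr {p : Pol ℝ} {x y : ℕ → ℝ} (h : ∀ t ∈ p, ∀ i ∈ t.2, x i = y i) :
    pv p x = pv p y := by
  unfold pv
  congr 1
  refine List.map_congr_left fun t ht => ?_
  congr 2
  exact List.map_congr_left fun i hi => h t ht i hi

theorem pv_congr_deg {d n : ℕ} {p : Pol ℝ} (hp : Deg d n p) {x y : ℕ → ℝ}
    (h : ∀ i < n, x i = y i) : pv p x = pv p y :=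
  pv_congr fun t ht i hi => h i ((hp t ht).2 i hi)

theorem xt_of_lt {n : ℕ} (x : Fin n → ℝ) {i : ℕ} (h : i < n) : xt x i = x ⟨i, h⟩ := by
  simp [xt, h]

theorem xt_val {n : ℕ} (x : Fin n → ℝ) (i : Fin n) : xt x i = x i := by
  simp [xt]

theorem xt_line {n : ℕ} (x h : Fin n → ℝ) (t : ℝ) (i : ℕ) :
    xt (x + t • h) i = xt x i + t * xt h i := by
  unfold xt
  split_ifs with hi
  · simp
  · simp

/-- the restriction of a sequence to a vector has the same value -/
theorem pfn_restrict {d n : ℕ} {p : Pol ℝ} (hp : Deg d n p) (y : ℕ → ℝ) :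
    pfn n p (fun i => y i) = pv p y :=
  pv_congr_deg hp fun i hi => by simp [xt, hi]

end Pool.Agent.NPC.H695OPT
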