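import Pool.Agent.H695R3.OPT.Tasks

/-! Task C1: the value of the polynomial `lagr S`. -/

namespace Pool.Agent.NPC.H695OPT

theorem C1_map (q : Pol ℝ) (a l : ℕ) (z : ℕ → ℝ) :
    pv (q.map fun t => (t.1, a :: t.2.map fun i => i + l)) z =
      z a * pv q (fun i => z (i + l)) := by
  induction q with
  | nil => simp [pv]
  | cons t q ih =>
    rw [List.map_cons, pv_cons, pv_cons, ih]
    simp only [List.map_cons, List.prod_cons, List.map_map]
    have h : ((fun i => z (i + l)) : ℕ → ℝ) = z ∘ fun i => i + l := rfl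
    rw [h]
    ring

theorem C1 : S_C1 := by
  intro S z
  unfold lagr
  rw [pv_flatMap]
  have h : ∀ f : ℕ → ℝ, ((List.range S.length).map f).sum =
      ∑ a ∈ Finset.range S.length, f a := fun f => rfl
  rw [h]
  exact Finset.sum_congr rfl fun a _ => C1_map _ _ _ _

end Pool.Agent.NPC.H695OPT
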