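import Pool.Agent.H695R3.OPT.Tasks

/-! The degree of `lagr`. -/

namespace Pool.Agent.NPC.H695OPT

theorem C2 : S_C2 := by
  intro R _ n S hS t ht
  unfold lagr at ht
  simp only [List.mem_flatMap, List.mem_range, List.mem_map] at ht
  obtain ⟨a, ha, s, hs, rfl⟩ := ht
  have hq : S.getD a [] ∈ S := by
    rw [List.getD_eq_getElem _ _ ha]
    exact List.getElem_mem ha
  obtain ⟨h1, h2⟩ := hS _ hq s hs
  refine ⟨?_, fun i hi => ?_⟩
  · simp only [List.length_cons, List.length_map]
    omega
  · simp only [List.mem_cons, List.mem_map] at hi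
    rcases hi with rfl | ⟨j, hj, rfl⟩
    · omega
    · have := h2 j hj
      omega

end Pool.Agent.NPC.H695OPT
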