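import Pool.Agent.H695R3.OPT.Tasks

/-! C3: a quadratic system is solvable iff its Lagrange cubic has a critical point. -/

namespace Pool.Agent.NPC.H695OPT

open Pool.Agent.NPC.ER

theorem C3_diff_prod (l : List ℕ) (u v : ℕ → ℝ) :
    Differentiable ℝ (fun t : ℝ => (l.map (fun i => u i + t * v i)).prod) := by
  induction l with
  | nil =>
    simp only [List.map_nil, List.prod_nil]
    exact differentiable_const _
  | cons a l ih =>
    simp only [List.map_cons, List.prod_cons]
    exact ((differentiable_const _).add (differentiable_id.mul_const _)).mul ih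

theorem C3_diff_pv (p : Pol ℝ) (u v : ℕ → ℝ) :
    Differentiable ℝ (fun t : ℝ => pv p (fun i => u i + t * v i)) := by
  induction p with
  | nil =>
    simp only [pv_nil]
    exact differentiable_const _
  | cons m p ih =>
    simp only [pv_cons]
    exact ((C3_diff_prod m.2 u v).const_mul m.1).add ih

theorem C3_line (h1 : S_C1) {n : ℕ} (S : List (Pol ℝ)) (z h : Fin (S.length + n) → ℝ) (t : ℝ) :
    pfn (S.length + n) (lagr S) (z + t • h) = ∑ a ∈ Finset.range S.length,
      (xt z a + t * xt h a) *
        pv (S.getD a []) (fun i => xt z (i + S.length) + t * xt h (i + S.length)) := by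
  unfold pfn
  rw [h1 S]
  refine Finset.sum_congr rfl fun a _ => ?_
  rw [xt_line]
  congr 2
  funext i
  rw [xt_line]

theorem C3_deriv (h1 : S_C1) {n : ℕ} (S : List (Pol ℝ)) (z h : Fin (S.length + n) → ℝ) :
    deriv (fun t : ℝ => pfn (S.length + n) (lagr S) (z + t • h)) 0 =
      ∑ a ∈ Finset.range S.length, (xt h a * pv (S.getD a []) (fun i => xt z (i + S.length)) +
        xt z a * deriv (fun t : ℝ =>
          pv (S.getD a []) (fun i => xt z (i + S.length) + t * xt h (i + S.length))) 0) := by
  have e : (fun t : ℝ => pfn (S.length + n) (lagr S) (z + t • h)) = fun t : ℝ =>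
      ∑ a ∈ Finset.range S.length, (xt z a + t * xt h a) *
        pv (S.getD a []) (fun i => xt z (i + S.length) + t * xt h (i + S.length)) := by
    funext t
    exact C3_line h1 S z h t
  rw [e]
  refine HasDerivAt.deriv ?_
  refine HasDerivAt.fun_sum fun a _ => ?_
  have d1 : HasDerivAt (fun t : ℝ => xt z a + t * xt h a) (xt h a) 0 := by
    have := ((hasDerivAt_id (0 : ℝ)).mul_const (xt h a)).const_add (xt z a)
    simpa using this
  have d2 := (C3_diff_pv (S.getD a []) (fun i => xt z (i + S.length))
    (fun i => xt h (i + S.length)) 0).hasDerivAt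
  have d3 := d1.fun_mul d2
  simpa using d3

theorem C3 : S_C3 := by
  intro h1 n S hS
  have hdeg : ∀ a < S.length, Deg 2 n (S.getD a []) := by
    intro a ha
    rw [List.getD_eq_getElem _ _ ha]
    exact hS _ (List.getElem_mem ha)
  constructor
  · rintro ⟨x, hx⟩
    let z : Fin (S.length + n) → ℝ := fun j => if h : S.length ≤ (j : ℕ) then
      x ⟨(j : ℕ) - S.length, by have := j.2; omega⟩ else 0
    have hz0 : ∀ a < S.length, xt z a = 0 := by
      intro a ha
      rw [xt_of_lt z (by omega : a < S.length + n)]
      simp only [z]
      rw [dif_neg (by show ¬ S.length ≤ a; omega)]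
    have hz1 : ∀ i < n, xt z (i + S.length) = xt x i := by
      intro i hi
      rw [xt_of_lt z (by omega : i + S.length < S.length + n), xt_of_lt x hi]
      simp only [z]
      rw [dif_pos (by show S.length ≤ i + S.length; omega)]
      congr 1
      ext
      simp
    refine ⟨z, fun h => ?_⟩
    rw [C3_deriv h1]
    refine Finset.sum_eq_zero fun a ha => ?_
    rw [Finset.mem_range] at ha
    rw [hz0 a ha, zero_mul, add_zero]
    have e : pv (S.getD a []) (fun i => xt z (i + S.length)) = pfn n (S.getD a []) x := by
      unfold pfn
      exact pv_congr_deg (hdeg a ha) fun i hi => hz1 i hi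
    rw [e, hx _ (by rw [List.getD_eq_getElem _ _ ha]; exact List.getElem_mem ha), mul_zero]
  · rintro ⟨z, hz⟩
    have key : ∀ a < S.length, pv (S.getD a []) (fun i => xt z (i + S.length)) = 0 := by
      intro a ha
      have haN : a < S.length + n := by omega
      set h : Fin (S.length + n) → ℝ := Pi.single ⟨a, haN⟩ 1 with hh
      have hh0 : ∀ i, xt h (i + S.length) = 0 := by
        intro i
        unfold xt
        split_ifs with hi
        · rw [hh, Pi.single_apply, if_neg]
          intro e
          have := congrArg Fin.val e
          simp only at this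
          omega
        · rfl
      have hh1 : ∀ b < S.length, xt h b = if b = a then 1 else 0 := by
        intro b hb
        rw [xt_of_lt h (by omega : b < S.length + n), hh, Pi.single_apply]
        simp only [Fin.mk.injEq]
      have hd := hz h
      rw [C3_deriv h1] at hd
      rw [Finset.sum_eq_single a] at hd
      · rw [hh1 a ha, if_pos rfl, one_mul] at hd
        have e0 : deriv (fun t : ℝ =>
            pv (S.getD a []) (fun i => xt z (i + S.length) + t * xt h (i + S.length))) 0 = 0 := by
          simp only [hh0, mul_zero, add_zero]
          exact deriv_const _ _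
        rw [e0, mul_zero, add_zero] at hd
        exact hd
      · intro b hb hba
        rw [Finset.mem_range] at hb
        rw [hh1 b hb, if_neg hba, zero_mul, zero_add]
        have e0 : deriv (fun t : ℝ =>
            pv (S.getD b []) (fun i => xt z (i + S.length) + t * xt h (i + S.length))) 0 = 0 := by
          simp only [hh0, mul_zero, add_zero]
          exact deriv_const _ _
        rw [e0, mul_zero]
      · intro hna
        exact absurd (Finset.mem_range.mpr ha) hna
    refine ⟨fun i => z ⟨(i : ℕ) + S.length, by have := i.2; omega⟩, fun q hq => ?_⟩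
    obtain ⟨a, ha, rfl⟩ := List.getElem_of_mem hq
    have hk := key a ha
    rw [List.getD_eq_getElem _ _ ha] at hk
    rw [← hk]
    unfold pfn
    refine pv_congr_deg (hS _ hq) fun i hi => ?_
    rw [xt_of_lt _ hi, xt_of_lt z (by omega : i + S.length < S.length + n)]

end Pool.Agent.NPC.H695OPT
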