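import Pool.Agent.H695R3.OPT.Tasks

/-! D1: the derivative of a polynomial (given as a list of terms) along a line (helper63). -/

namespace Pool.Agent.NPC.H695OPT

open Pool.Agent.NPC.ER

theorem D1_mono (X H : ℕ → ℝ) (t : ℝ) (l : List ℕ) :
    HasDerivAt (fun s : ℝ => (l.map fun i => X i + s * H i).prod)
      (∑ k ∈ Finset.range l.length,
        H (l.getD k 0) * ((l.eraseIdx k).map fun i => X i + t * H i).prod) t := by
  induction l with
  | nil => simpa using hasDerivAt_const t (1 : ℝ)
  | cons a l ih =>
    have h1 : HasDerivAt (fun s : ℝ => X a + s * H a) (H a) t := by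
      have h3 := ((hasDerivAt_id t).mul_const (H a)).const_add (X a)
      simpa using h3
    have h2 := h1.mul ih
    have e : (fun s : ℝ => ((a :: l).map fun i => X i + s * H i).prod) =
        (fun s : ℝ => X a + s * H a) * fun s : ℝ => (l.map fun i => X i + s * H i).prod := by
      funext s
      rw [List.map_cons, List.prod_cons]
      rfl
    rw [e]
    refine h2.congr_deriv ?_
    rw [List.length_cons, Finset.sum_range_succ', Finset.mul_sum, add_comm]
    congr 1
    refine Finset.sum_congr rfl fun k _ => ?_
    rw [List.getD_cons_succ, List.eraseIdx_cons_succ, List.map_cons, List.prod_cons]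
    ring

theorem D1_pv (X H : ℕ → ℝ) (t : ℝ) (p : Pol ℝ) :
    HasDerivAt (fun s : ℝ => pv p (fun i => X i + s * H i))
      (p.map fun u => u.1 * ∑ k ∈ Finset.range u.2.length,
        H (u.2.getD k 0) * ((u.2.eraseIdx k).map fun i => X i + t * H i).prod).sum t := by
  induction p with
  | nil => simpa [pv] using hasDerivAt_const t (0 : ℝ)
  | cons a p ih =>
    have e : (fun s : ℝ => pv (a :: p) (fun i => X i + s * H i)) =
        (fun s : ℝ => a.1 * (a.2.map fun i => X i + s * H i).prod) +
          fun s : ℝ => pv p (fun i => X i + s * H i) := by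
      funext s
      rw [pv_cons]
      rfl
    rw [e, List.map_cons, List.sum_cons]
    exact ((D1_mono X H t a.2).const_mul a.1).add ih

theorem D1_range (f : ℕ → ℝ) (n : ℕ) :
    ((List.range n).map f).sum = ∑ i ∈ Finset.range n, f i := by
  induction n with
  | zero => rfl
  | succ n ih =>
    rw [List.range_succ, List.map_append, List.sum_append, Finset.sum_range_succ, ih]
    simp

theorem D1_filter (P : ℕ → Bool) (g : ℕ → ℝ × List ℕ) (Y : ℕ → ℝ) (L : List ℕ) :
    pv ((L.filter P).map g) Y =
      (L.map fun k => if P k = true then (g k).1 * ((g k).2.map Y).prod else 0).sum := by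
  induction L with
  | nil => rfl
  | cons a L ih =>
    by_cases h : P a = true
    · rw [List.filter_cons_of_pos h, List.map_cons, pv_cons, ih, List.map_cons, List.sum_cons,
        if_pos h]
    · rw [List.filter_cons_of_neg h, ih, List.map_cons, List.sum_cons, if_neg h, zero_add]

theorem D1_term {n : ℕ} (h : Fin n → ℝ) (c : ℝ) (l : List ℕ) (hl : ∀ i ∈ l, i < n)
    (M : ℕ → ℝ) :
    ∑ i : Fin n, h i * ∑ k ∈ Finset.range l.length,
      (if decide (l.getD k 0 = (i : ℕ)) = true then c * M k else 0) =
    c * ∑ k ∈ Finset.range l.length, xt h (l.getD k 0) * M k := by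
  simp only [Finset.mul_sum]
  rw [Finset.sum_comm]
  refine Finset.sum_congr rfl fun k hk => ?_
  rw [Finset.mem_range] at hk
  have hm : l.getD k 0 < n := by
    rw [List.getD_eq_getElem _ _ hk]
    exact hl _ (List.getElem_mem hk)
  rw [Finset.sum_eq_single (⟨l.getD k 0, hm⟩ : Fin n)]
  · rw [if_pos (by simp), xt_of_lt h hm]
    ring
  · intro i _ hi
    rw [if_neg, mul_zero]
    intro he
    apply hi
    rw [decide_eq_true_eq] at he
    exact Fin.ext he.symm
  · intro hn
    exact absurd (Finset.mem_univ _) hn

theorem D1 : S_D1 := by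
  intro d n p hp x h t
  have h1 : (fun s : ℝ => pfn n p (x + s • h)) =
      fun s : ℝ => pv p (fun i => xt x i + s * xt h i) := by
    funext s
    unfold pfn
    congr 1
    funext i
    exact xt_line x h s i
  have h2 : xt (x + t • h) = fun i => xt x i + t * xt h i := by
    funext i
    exact xt_line x h t i
  rw [h1]
  refine (D1_pv (xt x) (xt h) t p).congr_deriv ?_
  unfold pfn
  rw [h2]
  generalize (fun i => xt x i + t * xt h i) = Y
  clear h1 h2
  induction p with
  | nil => simp [pd, pv]
  | cons a p ih =>
    have hp' : Deg d n p := fun u hu => hp u (List.mem_cons_of_mem _ hu)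
    rw [List.map_cons, List.sum_cons, ih hp']
    have h3 : ∀ i : Fin n, h i * pv (pd (i : ℕ) (a :: p)) Y =
        h i * (∑ k ∈ Finset.range a.2.length,
          (if decide (a.2.getD k 0 = (i : ℕ)) = true then
            a.1 * ((a.2.eraseIdx k).map Y).prod else 0)) + h i * pv (pd (i : ℕ) p) Y := by
      intro i
      rw [← mul_add]
      congr 1
      unfold pd
      rw [List.flatMap_cons, pv_append, D1_filter, D1_range]
    rw [Finset.sum_congr rfl fun i _ => h3 i, Finset.sum_add_distrib,
      D1_term h a.1 a.2 (hp a (List.mem_cons_self ..)).2]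

end Pool.Agent.NPC.H695OPT
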