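import Pool.Agent.H695R3.OPT.Tasks

/-! The partial derivative of a polynomial of degree at most `d + 1` has degree at most `d`. -/

namespace Pool.Agent.NPC.H695OPT

theorem D2 : S_D2 := by
  intro R d n i p hp t ht
  unfold pd at ht
  rw [List.mem_flatMap] at ht
  obtain ⟨s, hs, ht⟩ := ht
  rw [List.mem_map] at ht
  obtain ⟨k, hk, rfl⟩ := ht
  rw [List.mem_filter, List.mem_range] at hk
  obtain ⟨hk, -⟩ := hk
  obtain ⟨h1, h2⟩ := hp s hs
  refine ⟨?_, fun j hj => h2 j (List.mem_of_mem_eraseIdx hj)⟩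
  show (s.2.eraseIdx k).length ≤ d
  rw [List.length_eraseIdx_of_lt hk]
  omega

end Pool.Agent.NPC.H695OPT
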