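import Pool.Agent.H695R3.OPT.Tasks

/-! Task D3: critical points are the common zeros of the partial derivatives. -/

namespace Pool.Agent.NPC.H695OPT

theorem D3 : S_D3 := by
  intro hD1 d n p hp x
  have key : ∀ h : Fin n → ℝ, deriv (fun t : ℝ => pfn n p (x + t • h)) 0 =
      ∑ i : Fin n, h i * pfn n (pd i p) x := by
    intro h
    have h1 := (hD1 d n p hp x h 0).deriv
    rw [zero_smul, add_zero] at h1
    exact h1
  constructor
  · intro hc i
    have h1 := hc (Pi.single i 1)
    rw [key, Finset.sum_eq_single i] at h1
    · rwa [Pi.single_eq_same, one_mul] at h1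
    · intro j _ hj
      rw [Pi.single_eq_of_ne hj, zero_mul]
    · intro h2
      exact absurd (Finset.mem_univ i) h2
  · intro hc h
    rw [key]
    refine Finset.sum_eq_zero fun i _ => ?_
    rw [hc i, mul_zero]

end Pool.Agent.NPC.H695OPT
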