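import Pool.Agent.H695R3.OPT.Tasks

/-! Task D4: second derivative along a line. -/

namespace Pool.Agent.NPC.H695OPT

open Pool.Agent.NPC.ER

theorem D4 : S_D4 := by
  intro D1 D2 d n p hp x h
  have hp' : Deg (d + 1) n p := fun t ht => ⟨(hp t ht).1.trans (Nat.le_succ d), (hp t ht).2⟩
  have h1 : (deriv fun s : ℝ => pfn n p (x + s • h)) =
      fun s : ℝ => ∑ i : Fin n, h i * pfn n (pd i p) (x + s • h) :=
    funext fun t => (D1 d n p hp x h t).deriv
  have h2 : HasDerivAt (fun s : ℝ => ∑ i : Fin n, h i * pfn n (pd i p) (x + s • h))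
      (∑ i : Fin n, h i * ∑ j : Fin n, h j * pfn n (pd j (pd i p)) (x + (0 : ℝ) • h)) 0 :=
    HasDerivAt.fun_sum fun i _ =>
      (D1 d n (pd i p) (D2 ℝ d n i p hp') x h 0).const_mul (h i)
  rw [h1, h2.deriv]
  refine Finset.sum_congr rfl fun i _ => ?_
  rw [Finset.mul_sum]
  refine Finset.sum_congr rfl fun j _ => ?_
  rw [zero_smul, add_zero, mul_assoc]

end Pool.Agent.NPC.H695OPT
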