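import Pool.Agent.H695R3.OPT.Basic

/-! The statements of the tasks. -/

namespace Pool.Agent.NPC.H695OPT

open Pool.Agent.NPC.ER

/-! ### quartics -/

def S_H1 : Prop := ∀ (q : Pol ℝ) (z : ℕ → ℝ), pv (sqL q) z = (pv q z) ^ 2

def S_H2 : Prop := S_H1 → ∀ (S : List (Pol ℝ)) (z : ℕ → ℝ),
  pv (quart S) z = (z 0 * z 1 - 1) ^ 2 + (S.map fun q => (pv (q.map homT) z) ^ 2).sum

def S_H3 : Prop := ∀ q : Pol ℝ, (∀ t ∈ q, t.2.length ≤ 2) → ∀ (c : ℝ) (z : ℕ → ℝ),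
  pv (q.map homT) (fun i => c * z i) = c ^ 2 * pv (q.map homT) z

def S_H4 : Prop := ∀ q : Pol ℝ, (∀ t ∈ q, t.2.length ≤ 2) → ∀ z : ℕ → ℝ, z 0 ≠ 0 →
  pv (q.map homT) z = z 0 ^ 2 * pv q (fun i => z (i + 2) / z 0)

def S_H5 : Prop := ∀ (q : Pol ℝ) (z z' : ℕ → ℝ), (∀ i, i ≠ 1 → z i = z' i) →
  pv (q.map homT) z = pv (q.map homT) z'

def S_H6 : Prop := ∀ (R : Type) (_ : CommRing R) (n : ℕ) (S : List (Pol R)),
  (∀ q ∈ S, Deg 2 n q) → Deg 4 (n + 2) (quart S)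

def S_H12 : Prop := ∀ q : Pol ℝ, (∀ t ∈ q, t.2.length ≤ 2) → ∀ z w : ℕ → ℝ,
  ∃ α β : ℝ, ∀ t : ℝ,
    pv (q.map homT) (fun i => z i + t * w i) = pv (q.map homT) z + α * t + β * t ^ 2

/-- the value formula, for functions on `ℝ ^ (n + 2)` -/
def S_H7 : Prop := S_H1 → S_H2 → S_H3 → S_H5 → ∀ (n : ℕ) (S : List (Pol ℝ)),
  (∀ q ∈ S, Deg 2 n q) →
  (∀ z : Fin (n + 2) → ℝ, 0 ≤ pfn (n + 2) (quart S) z) ∧
    ∀ ε : ℝ, 0 < ε → ∃ z : Fin (n + 2) → ℝ, pfn (n + 2) (quart S) z < ε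

def S_H8 : Prop := S_H1 → S_H2 → S_H4 → ∀ (n : ℕ) (S : List (Pol ℝ)), (∀ q ∈ S, Deg 2 n q) →
  Solv n S → ∃ z : Fin (n + 2) → ℝ, pfn (n + 2) (quart S) z = 0

def S_H9 : Prop := S_H4 → ∀ (n : ℕ) (S : List (Pol ℝ)), (∀ q ∈ S, Deg 2 n q) →
  ∀ z : Fin (n + 2) → ℝ, xt z 0 ≠ 0 → (S.map fun q => (pv (q.map homT) (xt z)) ^ 2).sum = 0 →
  Solv n S

def S_H10 : Prop := S_H1 → S_H2 → S_H3 → S_H5 → ∀ (n : ℕ) (S : List (Pol ℝ)),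
  (∀ q ∈ S, Deg 2 n q) → ∀ z : Fin (n + 2) → ℝ, Crit (pfn (n + 2) (quart S)) z →
  (S.map fun q => (pv (q.map homT) (xt z)) ^ 2).sum = 0

def S_H11 : Prop := S_H1 → S_H2 → S_H5 → S_H12 → ∀ (n : ℕ) (S : List (Pol ℝ)),
  (∀ q ∈ S, Deg 2 n q) → ∀ z : Fin (n + 2) → ℝ, SecondOrder (pfn (n + 2) (quart S)) z →
  (S.map fun q => (pv (q.map homT) (xt z)) ^ 2).sum = 0 → xt z 0 ≠ 0

/-! ### derivatives -/

def S_D1 : Prop := ∀ (d n : ℕ) (p : Pol ℝ), Deg d n p → ∀ (x h : Fin n → ℝ) (t : ℝ),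
  HasDerivAt (fun s : ℝ => pfn n p (x + s • h)) (∑ i : Fin n, h i * pfn n (pd i p) (x + t • h)) t

def S_D2 : Prop := ∀ (R : Type) (d n i : ℕ) (p : Pol R), Deg (d + 1) n p → Deg d n (pd i p)

def S_D3 : Prop := S_D1 → ∀ (d n : ℕ) (p : Pol ℝ), Deg d n p → ∀ x : Fin n → ℝ,
  Crit (pfn n p) x ↔ ∀ i : Fin n, pfn n (pd i p) x = 0

def S_D4 : Prop := S_D1 → S_D2 → ∀ (d n : ℕ) (p : Pol ℝ), Deg d n p → ∀ x h : Fin n → ℝ,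
  deriv (deriv fun s : ℝ => pfn n p (x + s • h)) 0 =
    ∑ i : Fin n, ∑ j : Fin n, h i * h j * pfn n (pd j (pd i p)) x

def S_D5 : Prop := ∀ (n : ℕ) (A : Fin n → Fin n → ℝ), (∀ i j, A i j = A j i) →
  ((∀ h : Fin n → ℝ, 0 ≤ ∑ i, ∑ j, h i * h j * A i j) ↔
    ∃ C : Fin n → Fin n → ℝ, ∀ i j, A i j = ∑ k, C i k * C j k)

def S_D6 : Prop := S_D1 → S_D2 → S_D3 → S_D4 → S_D5 → ∀ (n : ℕ) (p : Pol ℝ), Deg 4 n p →
  (HasSOP (pfn n p) ↔ Solv (n + n * n) (sopSys n p))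

def S_D7 : Prop := S_D2 → ∀ (R : Type) (_ : CommRing R) (n : ℕ) (p : Pol R),
  (Deg 4 n p → ∀ q ∈ sopSys n p, Deg 3 (n + n * n) q) ∧
  (Deg 3 n p → ∀ q ∈ critSys n p, Deg 2 n q)

def S_D9 : Prop := ∀ (d n : ℕ) (p : Pol ℝ), Deg d n p → ∀ x : Fin n → ℝ,
  IsLocalMin (pfn n p) x → SecondOrder (pfn n p) x

/-! ### cubics -/

def S_C1 : Prop := ∀ (S : List (Pol ℝ)) (z : ℕ → ℝ), pv (lagr S) z =
  ∑ a ∈ Finset.range S.length, z a * pv (S.getD a []) (fun i => z (i + S.length))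

def S_C2 : Prop := ∀ (R : Type) (_ : CommRing R) (n : ℕ) (S : List (Pol R)),
  (∀ q ∈ S, Deg 2 n q) → Deg 3 (S.length + n) (lagr S)

def S_C3 : Prop := S_C1 → ∀ (n : ℕ) (S : List (Pol ℝ)), (∀ q ∈ S, Deg 2 n q) →
  (Solv n S ↔ HasCrit (pfn (S.length + n) (lagr S)))

/-! ### instances with integer coefficients -/

def S_B1 : Prop := (∀ (n : ℕ) (p : Pol ℤ), (sopSys n p).map cst = sopSys n (cst p)) ∧
  (∀ (n : ℕ) (p : Pol ℤ), (critSys n p).map cst = critSys n (cst p)) ∧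
  (∀ S : List (Pol ℤ), cst (quart S) = quart (S.map cst)) ∧
  (∀ S : List (Pol ℤ), cst (lagr S) = lagr (S.map cst)) ∧
  ∀ (d n : ℕ) (p : Pol ℤ), Deg d n (cst p) ↔ Deg d n p

def S_B2 : Prop := (∀ S : List Con, ∀ q ∈ conSys S, Deg 2 (H612.varsOf S).length q) ∧
  ∀ S : List Con, Sat S ↔ Solv (H612.varsOf S).length ((conSys S).map cst)

def S_B3 : Prop := ∀ (n : ℕ) (S : List (Pol ℤ)), (∀ q ∈ S, Deg 3 n q) →
  (Solv n (S.map cst) ↔ ETR (sysFm S))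

def S_B4 : Prop := (∀ (d : ℕ) (P : Inst), degB d P = true ↔ IsDeg d P) ∧
  ∀ d : ℕ, Poly (degB d)

/-- multiplication of integers -/
def S_B0 : Prop := ∀ (α : Type) (_ : TEnc α) (m n : α → ℤ), Poly m → Poly n →
  Poly fun a => m a * n a

/-- removal of an entry of a list -/
def S_B9 : Prop := ∀ (α : Type) (_ : TEnc α) (l : α → List ℕ) (k : α → ℕ), Poly l → Poly k →
  Poly fun a => (l a).eraseIdx (k a)

def S_B5 : Prop := S_B0 → Poly redQ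

def S_B6 : Prop := Poly redL

def S_B7 : Prop := S_B9 → Poly fun P : Inst => sysFm (sopSys P.1.length P.2)

def S_B8 : Prop := S_B9 → Poly fun P : Inst => sysFm (critSys P.1.length P.2)

end Pool.Agent.NPC.H695OPT
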