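import Mathlib
import Pool.Agent.H695R3.OPT.Tasks

namespace Pool.Agent.NPC.H695OPT

open scoped MatrixOrder in
theorem D5_factor {n : ℕ} (A : Matrix (Fin n) (Fin n) ℝ) (hA : A.PosSemidef) :
    ∃ B : Matrix (Fin n) (Fin n) ℝ, A = B.transpose * B := by
  classical
  obtain ⟨B, hB⟩ := CStarAlgebra.nonneg_iff_eq_star_mul_self.mp hA.nonneg
  exact ⟨B, by rw [hB, Matrix.star_eq_conjTranspose, Matrix.conjTranspose_eq_transpose_of_trivial]⟩

theorem D5 : S_D5 := by
  intro n A hsym
  constructor
  · intro h
    have hpos : (Matrix.of A : Matrix (Fin n) (Fin n) ℝ).PosSemidef := by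
      refine Matrix.PosSemidef.of_dotProduct_mulVec_nonneg ?_ ?_
      · ext i j
        simp [Matrix.conjTranspose_apply, hsym i j]
      · intro x
        have := h x
        have e : star x ⬝ᵥ ((Matrix.of A : Matrix (Fin n) (Fin n) ℝ).mulVec x) =
            ∑ i, ∑ j, x i * x j * A i j := by
          simp only [dotProduct, Matrix.mulVec, Pi.star_apply, star_trivial, Matrix.of_apply,
            Finset.mul_sum]
          refine Finset.sum_congr rfl fun i _ => Finset.sum_congr rfl fun j _ => ?_
          ring
        rw [e]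
        exact this
    obtain ⟨B, hB⟩ := D5_factor _ hpos
    refine ⟨fun i k => B k i, fun i j => ?_⟩
    have := congr_fun (congr_fun hB i) j
    rw [Matrix.mul_apply] at this
    simpa [Matrix.transpose_apply] using this
  · rintro ⟨C, hC⟩ h
    have e : ∑ i, ∑ j, h i * h j * A i j = ∑ k, (∑ i, h i * C i k) ^ 2 := by
      calc ∑ i, ∑ j, h i * h j * A i j = ∑ i, ∑ j, ∑ k, (h i * C i k) * (h j * C j k) := by
            refine Finset.sum_congr rfl fun i _ => Finset.sum_congr rfl fun j _ => ?_
            rw [hC, Finset.mul_sum]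
            refine Finset.sum_congr rfl fun k _ => ?_
            ring
        _ = ∑ i, ∑ k, ∑ j, (h i * C i k) * (h j * C j k) :=
            Finset.sum_congr rfl fun i _ => Finset.sum_comm
        _ = ∑ k, ∑ i, ∑ j, (h i * C i k) * (h j * C j k) := Finset.sum_comm
        _ = ∑ k, (∑ i, h i * C i k) ^ 2 := by
            refine Finset.sum_congr rfl fun k _ => ?_
            rw [sq, Finset.sum_mul_sum]
    rw [e]
    exact Finset.sum_nonneg fun k _ => sq_nonneg _

end Pool.Agent.NPC.H695OPT
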