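import Pool.Agent.H695R3.OPT.Tasks

/-!
D6: the system for second-order points.
-/

namespace Pool.Agent.NPC.H695OPT

open Pool.Agent.NPC.ER

theorem D6_pv (l : List ℕ) (a b : ℕ → ℕ) (z : ℕ → ℝ) :
    pv (l.map fun k => ((-2 : ℝ), [a k, b k])) z
      = -2 * (l.map fun k => z (a k) * z (b k)).sum := by
  induction l with
  | nil => simp [pv_nil]
  | cons k l ih =>
    rw [List.map_cons (l := l), pv_cons, ih]
    simp only [List.map_cons, List.sum_cons, List.map_nil, List.prod_cons, List.prod_nil]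
    ring

theorem D6_range (n : ℕ) (f : ℕ → ℝ) : ((List.range n).map f).sum = ∑ k : Fin n, f k := by
  induction n with
  | zero => simp
  | succ n ih =>
    rw [List.range_succ, List.map_append, List.sum_append, ih, Fin.sum_univ_castSucc]
    simp

theorem D6_key (h2 : S_D2) (n : ℕ) (p : Pol ℝ) (hp : Deg 4 n p) (y : Fin (n + n * n) → ℝ) :
    (∀ q ∈ sopSys n p, pfn (n + n * n) q y = 0) ↔
      (∀ i : Fin n, pfn n (pd i p) (fun m : Fin n => xt y m) = 0) ∧
      ∀ i j : Fin n, pfn n (pd i (pd j p)) (fun m : Fin n => xt y m) +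
        pfn n (pd j (pd i p)) (fun m : Fin n => xt y m) =
        2 * ∑ k : Fin n, xt y (n + (i * n + k)) * xt y (n + (j * n + k)) := by
  have e1 : ∀ i : ℕ, pfn n (pd i p) (fun m : Fin n => xt y m) = pv (pd i p) (xt y) :=
    fun i => pfn_restrict (h2 ℝ 3 n i p hp) (xt y)
  have e2 : ∀ i j : ℕ, pfn n (pd i (pd j p)) (fun m : Fin n => xt y m)
      = pv (pd i (pd j p)) (xt y) :=
    fun i j => pfn_restrict (h2 ℝ 2 n i _ (h2 ℝ 3 n j p hp)) (xt y)
  have e3 : ∀ i j : ℕ, pfn (n + n * n) (pd i (pd j p) ++ (pd j (pd i p) ++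
      (List.range n).map fun k => ((-2 : ℝ), [n + (i * n + k), n + (j * n + k)]))) y =
      pv (pd i (pd j p)) (xt y) + pv (pd j (pd i p)) (xt y)
        - 2 * ∑ k : Fin n, xt y (n + (i * n + k)) * xt y (n + (j * n + k)) := by
    intro i j
    show pv _ (xt y) = _
    rw [pv_append, pv_append, D6_pv, D6_range n (fun k => xt y (n + (i * n + k)) *
      xt y (n + (j * n + k)))]
    ring
  constructor
  · intro h
    constructor
    · intro i
      rw [e1]
      exact h (pd i p) (by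
        unfold sopSys critSys
        rw [List.mem_append]
        exact Or.inl (List.mem_map.2 ⟨i, List.mem_range.2 i.2, rfl⟩))
    · intro i j
      have := h (pd i (pd j p) ++ (pd j (pd i p) ++
        (List.range n).map fun k => ((-2 : ℝ), [n + (i * n + k), n + (j * n + k)]))) (by
        unfold sopSys
        rw [List.mem_append]
        right
        rw [List.mem_flatMap]
        exact ⟨i, List.mem_range.2 i.2, List.mem_map.2 ⟨j, List.mem_range.2 j.2, rfl⟩⟩)
      rw [e3] at this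
      rw [e2, e2]
      linarith
  · rintro ⟨h1, h3⟩ q hq
    unfold sopSys critSys at hq
    rw [List.mem_append, List.mem_map, List.mem_flatMap] at hq
    rcases hq with ⟨i, hi, rfl⟩ | ⟨i, hi, hq⟩
    · have := h1 ⟨i, List.mem_range.1 hi⟩
      rw [e1] at this
      exact this
    · rw [List.mem_map] at hq
      obtain ⟨j, hj, rfl⟩ := hq
      have := h3 ⟨i, List.mem_range.1 hi⟩ ⟨j, List.mem_range.1 hj⟩
      rw [e2, e2] at this
      rw [e3]
      simp only at this
      linarith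

theorem D6_sum (n : ℕ) (B : Fin n → Fin n → ℝ) (h : Fin n → ℝ) :
    ∑ i, ∑ j, h i * h j * B i j = ∑ i, ∑ j, h i * h j * ((B i j + B j i) / 2) := by
  have e : ∑ i, ∑ j, h i * h j * B j i = ∑ i, ∑ j, h i * h j * B i j := by
    rw [Finset.sum_comm]
    refine Finset.sum_congr rfl fun i _ => Finset.sum_congr rfl fun j _ => ?_
    ring
  have e2 : ∑ i, ∑ j, h i * h j * ((B i j + B j i) / 2)
      = (∑ i, ∑ j, h i * h j * B i j + ∑ i, ∑ j, h i * h j * B j i) / 2 := by
    rw [← Finset.sum_add_distrib, Finset.sum_div]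
    refine Finset.sum_congr rfl fun i _ => ?_
    rw [← Finset.sum_add_distrib, Finset.sum_div]
    refine Finset.sum_congr rfl fun j _ => ?_
    ring
  rw [e2, e]
  ring

theorem D6_so (h1 : S_D1) (h2 : S_D2) (h3 : S_D3) (h4 : S_D4) (h5 : S_D5) (n : ℕ) (p : Pol ℝ)
    (hp : Deg 4 n p) (x : Fin n → ℝ) : SecondOrder (pfn n p) x ↔
      (∀ i : Fin n, pfn n (pd i p) x = 0) ∧ ∃ C : Fin n → Fin n → ℝ, ∀ i j : Fin n,
        pfn n (pd i (pd j p)) x + pfn n (pd j (pd i p)) x = 2 * ∑ k, C i k * C j k := by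
  unfold SecondOrder
  rw [h3 h1 4 n p hp x]
  refine and_congr_right fun _ => ?_
  have hA := h5 n (fun i j => (pfn n (pd j (pd i p)) x + pfn n (pd i (pd j p)) x) / 2)
    (fun i j => by ring)
  constructor
  · intro h
    obtain ⟨C, hC⟩ := hA.1 (fun v => by
      rw [← D6_sum n (fun i j => pfn n (pd j (pd i p)) x) v, ← h4 h1 h2 4 n p hp x v]
      exact h v)
    refine ⟨C, fun i j => ?_⟩
    have := hC i j
    linarith
  · rintro ⟨C, hC⟩ v
    rw [h4 h1 h2 4 n p hp x v, D6_sum n (fun i j => pfn n (pd j (pd i p)) x) v]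
    exact hA.2 ⟨C, fun i j => by
      have := hC i j
      linarith⟩ v

theorem D6_z (n : ℕ) (x : Fin n → ℝ) (C : Fin n → Fin n → ℝ) :
    ∃ z : ℕ → ℝ, (∀ i : Fin n, z i = x i) ∧ ∀ i k : Fin n, z (n + (i * n + k)) = C i k := by
  refine ⟨fun m => if h : m < n then x ⟨m, h⟩ else
    if h : (m - n) / n < n ∧ (m - n) % n < n then C ⟨(m - n) / n, h.1⟩ ⟨(m - n) % n, h.2⟩
      else 0, ?_, ?_⟩
  · intro i
    simp [i.2]
  · intro i k
    have hn : 0 < n := i.pos
    have a0 : ¬ (n + ((i : ℕ) * n + k) < n) := by omega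
    have a1 : (n + ((i : ℕ) * n + k) - n) / n = i := by
      rw [Nat.add_sub_cancel_left, mul_comm, Nat.mul_add_div hn, Nat.div_eq_of_lt k.2, add_zero]
    have a2 : (n + ((i : ℕ) * n + k) - n) % n = k := by
      rw [Nat.add_sub_cancel_left, mul_comm, Nat.mul_add_mod, Nat.mod_eq_of_lt k.2]
    have key : ∀ (a b : ℕ) (ha : a < n) (hb : b < n), a = i → b = k →
        C ⟨a, ha⟩ ⟨b, hb⟩ = C i k := by
      rintro _ _ _ _ rfl rfl
      rfl
    show (if h : n + ((i : ℕ) * n + k) < n then x ⟨n + ((i : ℕ) * n + k), h⟩ else _) = _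
    rw [dif_neg a0, dif_pos ⟨by rw [a1]; exact i.2, by rw [a2]; exact k.2⟩]
    exact key _ _ _ _ a1 a2

theorem D6 : S_D6 := by
  intro h1 h2 h3 h4 h5 n p hp
  constructor
  · rintro ⟨x, hx⟩
    rw [D6_so h1 h2 h3 h4 h5 n p hp x] at hx
    obtain ⟨hx1, C, hC⟩ := hx
    obtain ⟨z, hz1, hz2⟩ := D6_z n x C
    have hy : ∀ m, m < n + n * n → xt (fun i : Fin (n + n * n) => z i) m = z m := by
      intro m hm
      rw [xt_of_lt _ hm]
    have hX : (fun m : Fin n => xt (fun i : Fin (n + n * n) => z i) m) = x := by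
      funext m
      rw [hy m (by have := m.2; omega), hz1]
    have hb : ∀ i k : Fin n, n + ((i : ℕ) * n + k) < n + n * n := by
      intro i k
      have a1 : ((i : ℕ) + 1) * n ≤ n * n := Nat.mul_le_mul_right n i.2
      have a2 := k.2
      rw [Nat.add_mul, one_mul] at a1
      omega
    refine ⟨fun i => z i, (D6_key h2 n p hp _).2 ⟨?_, ?_⟩⟩
    · intro i
      rw [hX]
      exact hx1 i
    · intro i j
      rw [hX, hC i j]
      congr 1
      refine Finset.sum_congr rfl fun k _ => ?_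
      rw [hy _ (hb i k), hy _ (hb j k), hz2, hz2]
  · rintro ⟨y, hy⟩
    rw [D6_key h2 n p hp y] at hy
    obtain ⟨a1, a2⟩ := hy
    exact ⟨fun m : Fin n => xt y m, (D6_so h1 h2 h3 h4 h5 n p hp _).2
      ⟨a1, fun i k => xt y (n + (i * n + k)), a2⟩⟩

end Pool.Agent.NPC.H695OPT
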