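import Pool.Agent.H695R3.OPT.Tasks

namespace Pool.Agent.NPC.H695OPT

open Pool.Agent.NPC.ER

theorem D6_sum_range (n : ℕ) (f : ℕ → ℝ) :
    ((List.range n).map f).sum = ∑ i : Fin n, f i := by
  induction n with
  | zero => simp
  | succ n ih =>
    rw [List.range_succ, List.map_append, List.sum_append, ih, Fin.sum_univ_castSucc]
    simp

theorem D6_sys (h2 : S_D2) (n : ℕ) (p : Pol ℝ) (hp : Deg 4 n p) (y : Fin (n + n * n) → ℝ)
    (x : Fin n → ℝ) (C : Fin n → Fin n → ℝ) (hx : ∀ i < n, xt y i = xt x i)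
    (hC : ∀ i k : Fin n, xt y (n + ((i : ℕ) * n + k)) = C i k) :
    (∀ q ∈ sopSys n p, pfn (n + n * n) q y = 0) ↔
      (∀ i : Fin n, pfn n (pd i p) x = 0) ∧ ∀ i j : Fin n,
        pfn n (pd i (pd j p)) x + (pfn n (pd j (pd i p)) x + ∑ k, (-2) * (C i k * C j k)) = 0 := by
  have hd1 : ∀ i : ℕ, Deg 3 n (pd i p) := fun i => h2 ℝ 3 n i p hp
  have hd2 : ∀ i j : ℕ, Deg 2 n (pd i (pd j p)) := fun i j => h2 ℝ 2 n i _ (hd1 j)
  have e1 : ∀ i : ℕ, pfn (n + n * n) (pd i p) y = pfn n (pd i p) x := fun i =>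
    pv_congr_deg (hd1 i) hx
  have e2 : ∀ i j : ℕ, pv (pd i (pd j p)) (xt y) = pfn n (pd i (pd j p)) x := fun i j =>
    pv_congr_deg (hd2 i j) hx
  have e3 : ∀ i j : Fin n, pv ((List.range n).map fun k =>
      ((-2 : ℝ), [n + ((i : ℕ) * n + k), n + ((j : ℕ) * n + k)])) (xt y) =
      ∑ k, (-2) * (C i k * C j k) := by
    intro i j
    unfold pv
    rw [List.map_map, D6_sum_range]
    refine Finset.sum_congr rfl fun k _ => ?_
    simp only [Function.comp_apply, List.map_cons, List.map_nil, List.prod_cons, List.prod_nil,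
      mul_one]
    rw [hC, hC]
  have e4 : ∀ i j : Fin n, pfn (n + n * n) (pd i (pd j p) ++ (pd j (pd i p) ++
      (List.range n).map fun k => ((-2 : ℝ), [n + ((i : ℕ) * n + k), n + ((j : ℕ) * n + k)]))) y =
      pfn n (pd i (pd j p)) x + (pfn n (pd j (pd i p)) x + ∑ k, (-2) * (C i k * C j k)) := by
    intro i j
    unfold pfn at e2 ⊢
    rw [pv_append, pv_append, e3, e2, e2]
  unfold sopSys critSys
  constructor
  · intro h
    constructor
    · intro i
      rw [← e1]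
      refine h _ (List.mem_append_left _ (List.mem_map.2 ⟨(i : ℕ), List.mem_range.2 i.2, rfl⟩))
    · intro i j
      rw [← e4]
      refine h _ (List.mem_append_right _ (List.mem_flatMap.2 ⟨(i : ℕ), List.mem_range.2 i.2,
        List.mem_map.2 ⟨(j : ℕ), List.mem_range.2 j.2, rfl⟩⟩))
  · rintro ⟨ha, hb⟩ q hq
    rcases List.mem_append.1 hq with hq | hq
    · obtain ⟨i, hi, rfl⟩ := List.mem_map.1 hq
      rw [e1]
      exact ha ⟨i, List.mem_range.1 hi⟩
    · obtain ⟨i, hi, hq⟩ := List.mem_flatMap.1 hq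
      obtain ⟨j, hj, rfl⟩ := List.mem_map.1 hq
      exact (e4 ⟨i, List.mem_range.1 hi⟩ ⟨j, List.mem_range.1 hj⟩).trans
        (hb ⟨i, List.mem_range.1 hi⟩ ⟨j, List.mem_range.1 hj⟩)

theorem D6_symm (n : ℕ) (H : Fin n → Fin n → ℝ) (h : Fin n → ℝ) :
    ∑ i, ∑ j, h i * h j * ((H i j + H j i) / 2) = ∑ i, ∑ j, h i * h j * H i j := by
  have e1 : ∑ i, ∑ j, h i * h j * H j i = ∑ i, ∑ j, h i * h j * H i j := by
    rw [Finset.sum_comm]
    refine Finset.sum_congr rfl fun i _ => Finset.sum_congr rfl fun j _ => ?_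
    ring
  have e2 : ∑ i, ∑ j, h i * h j * ((H i j + H j i) / 2) =
      ((∑ i, ∑ j, h i * h j * H i j) + ∑ i, ∑ j, h i * h j * H j i) / 2 := by
    rw [← Finset.sum_add_distrib, Finset.sum_div]
    refine Finset.sum_congr rfl fun i _ => ?_
    rw [← Finset.sum_add_distrib, Finset.sum_div]
    refine Finset.sum_congr rfl fun j _ => ?_
    ring
  rw [e2, e1]
  ring

theorem D6b : S_D6 := by
  intro h1 h2 h3 h4 h5 n p hp
  have key : ∀ x : Fin n → ℝ, SecondOrder (pfn n p) x ↔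
      (∀ i : Fin n, pfn n (pd i p) x = 0) ∧ ∃ C : Fin n → Fin n → ℝ, ∀ i j : Fin n,
        (pfn n (pd j (pd i p)) x + pfn n (pd i (pd j p)) x) / 2 = ∑ k, C i k * C j k := by
    intro x
    unfold SecondOrder
    rw [h3 h1 4 n p hp x]
    refine and_congr Iff.rfl ?_
    rw [← h5 n (fun i j => (pfn n (pd j (pd i p)) x + pfn n (pd i (pd j p)) x) / 2)
      (fun i j => by ring)]
    refine forall_congr' fun h => ?_
    rw [h4 h1 h2 4 n p hp x h,
      D6_symm n (fun i j => pfn n (pd (j : ℕ) (pd (i : ℕ) p)) x) h]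
  constructor
  · rintro ⟨x, hx⟩
    obtain ⟨hc, C, hC⟩ := (key x).1 hx
    let Y : ℕ → ℝ := fun t => if h : t < n then x ⟨t, h⟩ else
      if h2 : (t - n) / n < n ∧ (t - n) % n < n then C ⟨(t - n) / n, h2.1⟩ ⟨(t - n) % n, h2.2⟩
      else 0
    have hY : ∀ t, t < n + n * n → xt (fun i : Fin (n + n * n) => Y i) t = Y t := by
      intro t ht
      rw [xt_of_lt _ ht]
    refine ⟨fun i => Y i, (D6_sys h2 n p hp _ x C ?_ ?_).2 ⟨hc, ?_⟩⟩
    · intro i hi
      rw [hY i (by omega), xt_of_lt x hi]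
      simp [Y, hi]
    · intro i k
      have hi := i.2
      have hk := k.2
      have hlt : (i : ℕ) * n + k < n * n := by nlinarith
      rw [hY _ (by omega)]
      have hd : (n + ((i : ℕ) * n + k) - n) / n = i := by
        rw [Nat.add_sub_cancel_left, mul_comm, Nat.mul_add_div (by omega), Nat.div_eq_of_lt hk,
          add_zero]
      have hm : (n + ((i : ℕ) * n + k) - n) % n = k := by
        rw [Nat.add_sub_cancel_left, mul_comm, Nat.mul_add_mod, Nat.mod_eq_of_lt hk]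
      have hnot : ¬ (n + ((i : ℕ) * n + k) < n) := by omega
      simp only [Y, dif_neg hnot]
      rw [dif_pos (by rw [hd, hm]; exact ⟨hi, hk⟩)]
      exact congrArg₂ C (Fin.ext hd) (Fin.ext hm)
    · intro i j
      have := hC i j
      have e : ∑ k, (-2) * (C i k * C j k) = (-2) * ∑ k, C i k * C j k := by
        rw [Finset.mul_sum]
      rw [e, ← this]
      ring
  · rintro ⟨y, hy⟩
    let x : Fin n → ℝ := fun i => xt y i
    let C : Fin n → Fin n → ℝ := fun i k => xt y (n + ((i : ℕ) * n + k))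
    have hxx : ∀ i < n, xt y i = xt x i := by
      intro i hi
      rw [xt_of_lt x hi]
    obtain ⟨ha, hb⟩ := (D6_sys h2 n p hp y x C hxx (fun i k => rfl)).1 hy
    refine ⟨x, (key x).2 ⟨ha, C, fun i j => ?_⟩⟩
    have := hb i j
    have e : ∑ k, (-2) * (C i k * C j k) = (-2) * ∑ k, C i k * C j k := by
      rw [Finset.mul_sum]
    rw [e] at this
    linarith

end Pool.Agent.NPC.H695OPT
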