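import Pool.Agent.H695R3.OPT.Tasks

/-!
# D7: the degrees of the systems `sopSys` and `critSys`
-/

namespace Pool.Agent.NPC.H695OPT

theorem D7_mono {R : Type} {d d' n n' : ℕ} {p : Pol R} (hd : d ≤ d') (hn : n ≤ n')
    (h : Deg d n p) : Deg d' n' p := fun t ht =>
  ⟨(h t ht).1.trans hd, fun i hi => ((h t ht).2 i hi).trans_le hn⟩

theorem D7_append {R : Type} {d n : ℕ} {p q : Pol R} (hp : Deg d n p) (hq : Deg d n q) :
    Deg d n (p ++ q) := fun t ht => by
  rcases List.mem_append.1 ht with h | h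
  exacts [hp t h, hq t h]

theorem D7_lt {n i k : ℕ} (hi : i < n) (hk : k < n) : n + (i * n + k) < n + n * n := by
  have h : (i + 1) * n ≤ n * n := Nat.mul_le_mul_right n hi
  rw [Nat.succ_mul] at h
  omega

theorem D7 : S_D7 := by
  intro hD2 R _ n p
  have hcrit : ∀ d, Deg (d + 1) n p → ∀ q ∈ critSys n p, Deg d n q := by
    intro d hp q hq
    obtain ⟨i, -, rfl⟩ := List.mem_map.1 hq
    exact hD2 R d n i p hp
  refine ⟨fun hp q hq => ?_, fun hp q hq => hcrit 2 hp q hq⟩
  rcases List.mem_append.1 hq with hq | hq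
  · exact D7_mono le_rfl (Nat.le_add_right _ _) (hcrit 3 hp q hq)
  · obtain ⟨i, hi, hq⟩ := List.mem_flatMap.1 hq
    obtain ⟨j, hj, rfl⟩ := List.mem_map.1 hq
    rw [List.mem_range] at hi hj
    have h2 : ∀ i j : ℕ, Deg 3 (n + n * n) (pd i (pd j p)) := fun i j =>
      D7_mono (by norm_num) (Nat.le_add_right _ _) (hD2 R 2 n i _ (hD2 R 3 n j p hp))
    refine D7_append (h2 i j) (D7_append (h2 j i) ?_)
    intro t ht
    obtain ⟨k, hk, rfl⟩ := List.mem_map.1 ht
    rw [List.mem_range] at hk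
    refine ⟨by simp, fun l hl => ?_⟩
    simp only [List.mem_cons, List.not_mem_nil, or_false] at hl
    rcases hl with rfl | rfl
    · exact D7_lt hi hk
    · exact D7_lt hj hk

end Pool.Agent.NPC.H695OPT
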