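import Pool.Agent.H695R3.OPT.Tasks
import Mathlib.Analysis.Calculus.DerivativeTest

/-! D9: a local minimiser is a second-order point. -/

namespace Pool.Agent.NPC.H695OPT

open Pool.Agent.NPC.ER

theorem D9_cont {n : ℕ} (p : Pol ℝ) (x h : Fin n → ℝ) :
    Continuous fun t : ℝ => pfn n p (x + t • h) := by
  unfold pfn
  induction p with
  | nil => simpa only [pv_nil] using continuous_const
  | cons a p ih =>
    simp only [pv_cons]
    refine Continuous.add (continuous_const.mul ?_) ih
    generalize a.2 = l
    induction l with
    | nil => simpa using continuous_const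
    | cons i l ihl =>
      simp only [List.map_cons, List.prod_cons]
      refine Continuous.mul ?_ ihl
      simp only [xt_line]
      exact continuous_const.add (continuous_id.mul continuous_const)

theorem D9 : S_D9 := by
  intro d n p _ x hx
  have key : ∀ h : Fin n → ℝ, IsLocalMin (fun t : ℝ => pfn n p (x + t • h)) 0 := by
    intro h
    have hc : Filter.Tendsto (fun t : ℝ => x + t • h) (nhds 0) (nhds x) := by
      have h1 : Continuous fun t : ℝ => x + t • h := by fun_prop
      have h2 := h1.tendsto 0
      simpa using h2
    have h3 := hc.eventually hx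
    filter_upwards [h3] with t ht
    simpa using ht
  refine ⟨fun h => (key h).deriv_eq_zero, fun h => ?_⟩
  by_contra hneg
  rw [not_le] at hneg
  have hmax : IsLocalMax (fun t : ℝ => pfn n p (x + t • h)) 0 :=
    isLocalMax_of_deriv_deriv_neg hneg (key h).deriv_eq_zero (D9_cont p x h).continuousAt
  have heq : (fun t : ℝ => pfn n p (x + t • h)) =ᶠ[nhds 0]
      fun _ => pfn n p (x + (0 : ℝ) • h) := by
    filter_upwards [hmax, key h] with t h1 h2
    exact le_antisymm h1 h2
  have h4 := heq.deriv
  have h5 := h4.deriv_eq
  rw [h5] at hneg
  simp at hneg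

end Pool.Agent.NPC.H695OPT
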