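import Pool.Agent.H549R2.CV.M
import Pool.Agent.H612.AffMain
import Mathlib.Analysis.Calculus.Deriv.Basic

/-!
# Critical points, second-order points, local minimisers of quartic and cubic polynomials

Polynomials over a ring `R` are lists of terms, a term is a coefficient with the list of its
variables (natural numbers).
-/

namespace Pool.Agent.NPC.H695OPT

open Pool.Agent.NPC.ER

/-- Polynomials: lists of terms, a term is a coefficient with the list of its variables. -/
abbrev Pol (R : Type) : Type := List (R × List ℕ)

/-- The value of a polynomial. -/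
noncomputable def pv (p : Pol ℝ) (x : ℕ → ℝ) : ℝ := (p.map fun t => t.1 * (t.2.map x).prod).sum

/-- Extension of a vector by zeros. -/
noncomputable def xt {n : ℕ} (x : Fin n → ℝ) (i : ℕ) : ℝ := if h : i < n then x ⟨i, h⟩ else 0

/-- The function on `ℝ ^ n` given by a polynomial. -/
noncomputable def pfn (n : ℕ) (p : Pol ℝ) (x : Fin n → ℝ) : ℝ := pv p (xt x)

/-- Degree at most `d` and variables less than `n`. -/
def Deg {R : Type} (d n : ℕ) (p : Pol R) : Prop := ∀ t ∈ p, t.2.length ≤ d ∧ ∀ i ∈ t.2, i < n

/-- The system of equations `q = 0`, `q ∈ S`, has a solution in `ℝ ^ n`. -/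
def Solv (n : ℕ) (S : List (Pol ℝ)) : Prop := ∃ x : Fin n → ℝ, ∀ q ∈ S, pfn n q x = 0

/-- `f` attains its infimum. -/
def Attains {n : ℕ} (f : (Fin n → ℝ) → ℝ) : Prop := ∃ x, ∀ y, f x ≤ f y

/-- `f` has a local minimiser. -/
def HasLocMin {n : ℕ} (f : (Fin n → ℝ) → ℝ) : Prop := ∃ x, IsLocalMin f x

/-- `x` is a critical point: all directional derivatives at `x` vanish. -/
def Crit {n : ℕ} (f : (Fin n → ℝ) → ℝ) (x : Fin n → ℝ) : Prop :=
  ∀ h : Fin n → ℝ, deriv (fun t : ℝ => f (x + t • h)) 0 = 0

/-- `f` has a critical point. -/
def HasCrit {n : ℕ} (f : (Fin n → ℝ) → ℝ) : Prop := ∃ x, Crit f x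

/-- `x` is a second-order point: a critical point at which all second directional derivatives are
nonnegative, i.e. the gradient vanishes and the Hessian matrix is positive semidefinite. -/
def SecondOrder {n : ℕ} (f : (Fin n → ℝ) → ℝ) (x : Fin n → ℝ) : Prop :=
  Crit f x ∧ ∀ h : Fin n → ℝ, 0 ≤ deriv (deriv (fun t : ℝ => f (x + t • h))) 0

/-- `f` has a second-order point. -/
def HasSOP {n : ℕ} (f : (Fin n → ℝ) → ℝ) : Prop := ∃ x, SecondOrder f x

section Reductions

variable {R : Type} [CommRing R]

/-- Homogenised term of degree two: the variables are shifted by two, missing factors are the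
variable `0`. -/
def homT (t : R × List ℕ) : R × List ℕ :=
  (t.1, (t.2.map fun i => i + 2) ++ List.replicate (2 - t.2.length) 0)

/-- The square of a polynomial. -/
def sqL (q : Pol R) : Pol R := q.flatMap fun m => q.map fun m' => (m.1 * m'.1, m.2 ++ m'.2)

/-- The quartic polynomial `(X₀ X₁ - 1)² + ∑ Q(X₀, X₂, X₃, ...)²`, where `Q` is the homogenisation
of `q`. -/
def quart (S : List (Pol R)) : Pol R :=
  (1, [0, 0, 1, 1]) :: (-2, [0, 1]) :: (1, []) :: S.flatMap fun q => sqL (q.map homT)

/-- The polynomial `∑ Y_a q_a(X)`, the variables `Y_a` are `0, ..., |S| - 1` and the variables `X`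
are shifted by `|S|`. -/
def lagr (S : List (Pol R)) : Pol R :=
  (List.range S.length).flatMap fun a =>
    (S.getD a []).map fun t => (t.1, a :: t.2.map fun i => i + S.length)

/-- The partial derivative with respect to the variable `i`. -/
def pd {R : Type} (i : ℕ) (p : Pol R) : Pol R :=
  p.flatMap fun t => ((List.range t.2.length).filter fun k => decide (t.2.getD k 0 = i)).map
    fun k => (t.1, t.2.eraseIdx k)

/-- The system for critical points. -/
def critSys {R : Type} (n : ℕ) (p : Pol R) : List (Pol R) := (List.range n).map fun i => pd i p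

/-- The system for second-order points: the gradient vanishes and twice the Hessian matrix is
`2 C Cᵀ` with the matrix `C` of the new variables `n + i n + k`. -/
def sopSys (n : ℕ) (p : Pol R) : List (Pol R) :=
  critSys n p ++ (List.range n).flatMap fun i => (List.range n).map fun j =>
    pd i (pd j p) ++ (pd j (pd i p) ++
      (List.range n).map fun k => ((-2 : R), [n + (i * n + k), n + (j * n + k)]))

end Reductions

section Boolean

/-- Polynomials with integer coefficients as polynomials with real coefficients. -/
noncomputable def cst (p : Pol ℤ) : Pol ℝ := p.map fun t => ((t.1 : ℝ), t.2)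

/-- Instances with integer coefficients: the number of variables in unary and a polynomial. -/
abbrev Inst : Type := List Bool × Pol ℤ

/-- The function on `ℝ ^ n` of an instance. -/
noncomputable def ifn (P : Inst) : (Fin P.1.length → ℝ) → ℝ := pfn P.1.length (cst P.2)

/-- Correct instances of degree at most `d`. -/
def IsDeg (d : ℕ) (P : Inst) : Prop := Deg d P.1.length P.2

/-- Test for correct instances of degree at most `d`. -/
def degB (d : ℕ) (P : Inst) : Bool :=
  P.2.all fun t => decide (t.2.length ≤ d) && t.2.all fun i => decide (i < P.1.length)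

/-- The quadratic equation of a constraint, variables are replaced by their indices in `V`. -/
def conQ (V : List ℕ) : Con → Pol ℤ
  | .one i => [(1, [V.idxOf i]), (-1, [])]
  | .add i j k => [(1, [V.idxOf i]), (1, [V.idxOf j]), (-1, [V.idxOf k])]
  | .mul i j k => [(1, [V.idxOf i, V.idxOf j]), (-1, [V.idxOf k])]

/-- The quadratic system of a list of constraints. -/
def conSys (S : List Con) : List (Pol ℤ) := S.map (conQ (H612.varsOf S))

/-- The quartic instance of a list of constraints. -/
def redQ (S : List Con) : Inst :=
  (List.replicate ((H612.varsOf S).length + 2) true, quart (conSys S))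

/-- The cubic instance of a list of constraints. -/
def redL (S : List Con) : Inst :=
  (List.replicate ((conSys S).length + (H612.varsOf S).length) true, lagr (conSys S))

/-- The formula of a system of equations. -/
def sysFm (S : List (Pol ℤ)) : Fm :=
  H670R2.conj (S.map fun q => Fm.eq (H549CV.evT q Tm.var) Tm.zero)

end Boolean

end Pool.Agent.NPC.H695OPT
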