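import Pool.Agent.H695R3.OPT.Defs

/-! Critical and singular points of cubics over arbitrary fields. -/

namespace Pool.Agent.NPC.H695OPT

variable {K : Type} [Field K]

/-- The value of a polynomial over a field. -/
def pvK (p : Pol K) (x : ℕ → K) : K := (p.map fun t => t.1 * (t.2.map x).prod).sum

/-- Extension of a vector by zeros. -/
def xtK {n : ℕ} (x : Fin n → K) (i : ℕ) : K := if h : i < n then x ⟨i, h⟩ else 0

/-- The system `q = 0`, `q ∈ S`, has a solution in `K ^ n`. -/
def SolvK (n : ℕ) (S : List (Pol K)) : Prop := ∃ x : Fin n → K, ∀ q ∈ S, pvK q (xtK x) = 0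

/-- All formal partial derivatives of `p` have a common zero in `K ^ n`. -/
def CritK (n : ℕ) (p : Pol K) : Prop := ∃ z : Fin n → K, ∀ i < n, pvK (pd i p) (xtK z) = 0

/-- The affine hypersurface `p = 0` has a singular point in `K ^ n`. -/
def SingK (n : ℕ) (p : Pol K) : Prop :=
  ∃ z : Fin n → K, pvK p (xtK z) = 0 ∧ ∀ i < n, pvK (pd i p) (xtK z) = 0

theorem pvK_append (p q : Pol K) (x : ℕ → K) : pvK (p ++ q) x = pvK p x + pvK q x := by
  simp [pvK]

theorem pvK_flatMap {α : Type} (l : List α) (f : α → Pol K) (x : ℕ → K) :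
    pvK (l.flatMap f) x = (l.map fun a => pvK (f a) x).sum := by
  induction l with
  | nil => rfl
  | cons a l ih => rw [List.flatMap_cons, pvK_append, ih]; rfl

theorem pvK_eq_zero {p : Pol K} {x : ℕ → K} (h : ∀ t ∈ p, ∃ i ∈ t.2, x i = 0) : pvK p x = 0 := by
  unfold pvK
  apply List.sum_eq_zero
  intro r hr
  obtain ⟨t, ht, rfl⟩ := List.mem_map.1 hr
  obtain ⟨i, hi, h0⟩ := h t ht
  rw [List.prod_eq_zero (List.mem_map.2 ⟨i, hi, h0⟩), mul_zero]

theorem pd_flatMap {α : Type} (i : ℕ) (l : List α) (f : α → Pol K) :
    pd i (l.flatMap f) = l.flatMap fun a => pd i (f a) := by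
  unfold pd
  rw [List.flatMap_assoc]

/-- the block of `lagr` -/
theorem pd_block (i a m : ℕ) (hi : i < m) (q : Pol K) :
    pd i (q.map fun t => (t.1, a :: t.2.map fun j => j + m)) =
      if a = i then q.map fun t => (t.1, t.2.map fun j => j + m) else [] := by
  have key : ∀ t : K × List ℕ,
      (((List.range (a :: t.2.map fun j => j + m).length).filter fun k =>
        decide ((a :: t.2.map fun j => j + m).getD k 0 = i)).map
        fun k => (t.1, (a :: t.2.map fun j => j + m).eraseIdx k)) =
      if a = i then [(t.1, t.2.map fun j => j + m)] else [] := by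
    intro t
    rw [List.length_cons, List.range_succ_eq_map, List.filter_cons]
    have h1 : ((List.range (t.2.map fun j => j + m).length).map Nat.succ).filter (fun k =>
        decide ((a :: t.2.map fun j => j + m).getD k 0 = i)) = [] := by
      rw [List.filter_eq_nil_iff]
      intro k hk
      obtain ⟨k', hk', rfl⟩ := List.mem_map.1 hk
      have hlt := List.mem_range.1 hk'
      have h2 : (a :: t.2.map fun j => j + m).getD (Nat.succ k') 0 =
          (t.2.map fun j => j + m).getD k' 0 := rfl
      rw [h2, List.getD_eq_getElem _ _ hlt, List.getElem_map]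
      simp
      omega
    rw [h1]
    by_cases h : a = i
    · simp [h]
    · simp [h]
  unfold pd
  rw [List.flatMap_map]
  by_cases h : a = i
  · rw [if_pos h]
    induction q with
    | nil => rfl
    | cons t q ih =>
      rw [List.flatMap_cons, List.map_cons, ih]
      have := key t
      rw [if_pos h] at this
      simp only [this]
      rfl
  · rw [if_neg h]
    rw [List.flatMap_eq_nil_iff]
    intro t _
    have := key t
    rw [if_neg h] at this
    exact this

theorem pvK_shift (q : Pol K) (m : ℕ) (z : ℕ → K) :
    pvK (q.map fun t => (t.1, t.2.map fun j => j + m)) z = pvK q (fun j => z (j + m)) := by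
  unfold pvK
  rw [List.map_map]
  congr 1
  refine List.map_congr_left fun t _ => ?_
  simp [Function.comp_def]

/-- the partial derivatives with respect to the multipliers -/
theorem pvK_pd_lagr (S : List (Pol K)) (i : ℕ) (hi : i < S.length) (z : ℕ → K) :
    pvK (pd i (lagr S)) z = pvK (S.getD i []) (fun j => z (j + S.length)) := by
  unfold lagr
  rw [pd_flatMap, pvK_flatMap]
  have h1 : ((List.range S.length).map fun a => pvK (pd i ((S.getD a []).map fun t =>
      (t.1, a :: t.2.map fun j => j + S.length))) z) =
      (List.range S.length).map fun a => if a = i then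
        pvK (S.getD i []) (fun j => z (j + S.length)) else 0 := by
    refine List.map_congr_left fun a _ => ?_
    rw [pd_block i a S.length hi]
    by_cases h : a = i
    · rw [if_pos h, if_pos h, pvK_shift, h]
    · rw [if_neg h, if_neg h]; rfl
  rw [h1]
  have h2 : ∀ n : ℕ, ((List.range n).map fun a => if a = i then
      pvK (S.getD i []) (fun j => z (j + S.length)) else 0).sum =
      if i < n then pvK (S.getD i []) (fun j => z (j + S.length)) else 0 := by
    intro n
    induction n with
    | zero => simp
    | succ n ih =>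
      rw [List.range_succ, List.map_append, List.sum_append, ih]
      simp only [List.map_cons, List.map_nil, List.sum_cons, List.sum_nil, add_zero]
      by_cases h : i < n
      · rw [if_pos h, if_neg (by omega), if_pos (by omega), add_zero]
      · by_cases h' : n = i
        · rw [if_neg h, if_pos h', if_pos (by omega), zero_add]
        · rw [if_neg h, if_neg h', if_neg (by omega), zero_add]
  rw [h2, if_pos hi]

/-- every term of `lagr` contains a multiplier -/
theorem mem_lagr {S : List (Pol K)} {t : K × List ℕ} (ht : t ∈ lagr S) :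
    ∃ a < S.length, ∃ l, t.2 = a :: l := by
  unfold lagr at ht
  obtain ⟨a, ha, ht⟩ := List.mem_flatMap.1 ht
  obtain ⟨u, _, rfl⟩ := List.mem_map.1 ht
  exact ⟨a, List.mem_range.1 ha, _, rfl⟩

theorem pvK_pd_lagr_zero (S : List (Pol K)) (i : ℕ) (hi : S.length ≤ i) {z : ℕ → K}
    (hz : ∀ a < S.length, z a = 0) : pvK (pd i (lagr S)) z = 0 := by
  apply pvK_eq_zero
  intro t ht
  unfold pd at ht
  obtain ⟨u, hu, ht⟩ := List.mem_flatMap.1 ht
  obtain ⟨k, hk, rfl⟩ := List.mem_map.1 ht
  obtain ⟨a, ha, l, hl⟩ := mem_lagr hu
  have h1 := (List.mem_filter.1 hk).2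
  simp only [decide_eq_true_eq] at h1
  rw [hl] at h1
  refine ⟨a, ?_, hz a ha⟩
  cases k with
  | zero =>
    exfalso
    simp at h1
    omega
  | succ k =>
    show a ∈ u.2.eraseIdx (k + 1)
    rw [hl]
    simp

theorem pvK_lagr_zero (S : List (Pol K)) {z : ℕ → K}
    (hz : ∀ a < S.length, z a = 0) : pvK (lagr S) z = 0 := by
  apply pvK_eq_zero
  intro t ht
  obtain ⟨a, ha, l, hl⟩ := mem_lagr ht
  exact ⟨a, by rw [hl]; simp, hz a ha⟩

theorem pvK_congr {d n : ℕ} {q : Pol K} (hq : Deg d n q) {x y : ℕ → K} (h : ∀ i < n, x i = y i) :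
    pvK q x = pvK q y := by
  unfold pvK
  congr 1
  refine List.map_congr_left fun t ht => ?_
  congr 2
  exact List.map_congr_left fun i hi => h i ((hq t ht).2 i hi)

/-- **Cubic hypersurfaces.** A system of quadratic equations over a field is solvable iff the cubic
polynomial `∑ Y_a q_a(X)` has a critical point iff the hypersurface has a singular point. -/
theorem field_tfae (n : ℕ) (S : List (Pol K)) (hS : ∀ q ∈ S, Deg 2 n q) :
    List.TFAE [SolvK n S, CritK (S.length + n) (lagr S), SingK (S.length + n) (lagr S)] := by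
  tfae_have 1 → 3 := by
    rintro ⟨x, hx⟩
    set z : Fin (S.length + n) → K := fun i => if (i : ℕ) < S.length then 0 else
      xtK x (i - S.length) with hz
    have h0 : ∀ a < S.length, xtK z a = 0 := by
      intro a ha
      have h1 : a < S.length + n := by omega
      simp [xtK, h1, hz, ha]
    have h2 : ∀ j < n, xtK z (j + S.length) = xtK x j := by
      intro j hj
      have h1 : j + S.length < S.length + n := by omega
      simp only [xtK, h1, hz, dif_pos]
      rw [if_neg (by omega)]
      simp
    refine ⟨z, pvK_lagr_zero S h0, fun i _ => ?_⟩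
    by_cases h : i < S.length
    · rw [pvK_pd_lagr S i h]
      have hmem : S.getD i [] ∈ S := by
        rw [List.getD_eq_getElem _ _ h]; exact List.getElem_mem h
      rw [pvK_congr (hS _ hmem) (y := xtK x) h2]
      exact hx _ hmem
    · exact pvK_pd_lagr_zero S i (by omega) h0
  tfae_have 3 → 2 := by
    rintro ⟨z, _, hz⟩
    exact ⟨z, hz⟩
  tfae_have 2 → 1 := by
    rintro ⟨z, hz⟩
    refine ⟨fun j => xtK z (j + S.length), fun q hq => ?_⟩
    obtain ⟨i, hi, rfl⟩ := List.getElem_of_mem hq
    have h1 := hz i (by omega)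
    rw [pvK_pd_lagr S i hi, List.getD_eq_getElem _ _ hi] at h1
    rw [← h1]
    apply pvK_congr (hS _ hq)
    intro j hj
    simp [xtK, hj]
  tfae_finish

end Pool.Agent.NPC.H695OPT
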