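import Pool.Agent.H695R3.OPT.Tasks

/-! The value of the square of a polynomial given as a list of terms. -/

namespace Pool.Agent.NPC.H695OPT

theorem H1_row (m : ℝ × List ℕ) (q : Pol ℝ) (z : ℕ → ℝ) :
    pv (q.map fun m' => (m.1 * m'.1, m.2 ++ m'.2)) z = m.1 * (m.2.map z).prod * pv q z := by
  induction q with
  | nil => simp [pv]
  | cons a q ih =>
    rw [List.map_cons, pv_cons, pv_cons, ih, List.map_append, List.prod_append]
    ring

theorem H1_left (p q : Pol ℝ) (z : ℕ → ℝ) :
    pv (p.flatMap fun m => q.map fun m' => (m.1 * m'.1, m.2 ++ m'.2)) z = pv p z * pv q z := by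
  induction p with
  | nil => simp [pv]
  | cons a p ih =>
    rw [List.flatMap_cons, pv_append, H1_row, ih, pv_cons]
    ring

theorem H1 : S_H1 := by
  intro q z
  rw [sqL, H1_left, sq]

end Pool.Agent.NPC.H695OPT
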