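import Pool.Agent.H695R3.OPT.Tasks
import Mathlib.Analysis.Calculus.Deriv.Pow
import Mathlib.Analysis.Calculus.Deriv.Add
import Mathlib.Analysis.Calculus.Deriv.Mul

/-! H10: at a critical point of the quartic the sum of squares is zero. -/

namespace Pool.Agent.NPC.H695OPT

open Pool.Agent.NPC.ER

theorem H10_value (H2 : ∀ (S : List (Pol ℝ)) (z : ℕ → ℝ),
      pv (quart S) z = (z 0 * z 1 - 1) ^ 2 + (S.map fun q => (pv (q.map homT) z) ^ 2).sum)
    (H3 : S_H3) (H5 : S_H5) (n : ℕ) (S : List (Pol ℝ)) (hS : ∀ q ∈ S, Deg 2 n q)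
    (z : Fin (n + 2) → ℝ) (t : ℝ) :
    pfn (n + 2) (quart S) (z + t • (fun i : Fin (n + 2) => if i.val = 1 then - z i else z i)) =
      ((1 - t ^ 2) * (xt z 0 * xt z 1) - 1) ^ 2 +
        (1 + t) ^ 4 * (S.map fun q => (pv (q.map homT) (xt z)) ^ 2).sum := by
  have hx : ∀ i, i ≠ 1 →
      xt (z + t • (fun i : Fin (n + 2) => if i.val = 1 then - z i else z i)) i =
        (1 + t) * xt z i := by
    intro i hi
    rw [xt_line]
    unfold xt
    split_ifs with h
    · simp only [hi, if_false]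
      ring
    · ring
  have hx1 : xt (z + t • (fun i : Fin (n + 2) => if i.val = 1 then - z i else z i)) 1 =
        (1 - t) * xt z 1 := by
    rw [xt_line]
    have h1 : 1 < n + 2 := by omega
    rw [xt_of_lt _ h1, xt_of_lt _ h1]
    simp only [if_true]
    ring
  unfold pfn
  rw [H2, hx 0 (by norm_num), hx1]
  congr 1
  · ring
  · rw [← List.sum_map_mul_left]
    congr 1
    refine List.map_congr_left fun q hq => ?_
    rw [H5 q _ (fun i => (1 + t) * xt z i) hx, H3 q (fun s hs => (hS q hq s hs).1)]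
    ring

theorem H10 : S_H10 := by
  intro h1 h2 H3 H5 n S hS z hz
  have H2 := h2 h1
  have h := hz (fun i : Fin (n + 2) => if i.val = 1 then - z i else z i)
  set A : ℝ := (S.map fun q => (pv (q.map homT) (xt z)) ^ 2).sum with hA
  have hf : (fun t : ℝ => pfn (n + 2) (quart S)
      (z + t • (fun i : Fin (n + 2) => if i.val = 1 then - z i else z i))) =
      fun t : ℝ => ((1 - t ^ 2) * (xt z 0 * xt z 1) - 1) ^ 2 + (1 + t) ^ 4 * A := by
    funext t
    exact H10_value H2 H3 H5 n S hS z t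
  rw [hf] at h
  have hd : HasDerivAt (fun t : ℝ => ((1 - t ^ 2) * (xt z 0 * xt z 1) - 1) ^ 2 + (1 + t) ^ 4 * A)
      (4 * A) 0 := by
    have e1 : HasDerivAt (fun t : ℝ => t) 1 0 := hasDerivAt_id 0
    have e2 := (((((e1.pow 2).const_sub 1).mul_const (xt z 0 * xt z 1)).sub_const 1).pow 2).add
      (((e1.const_add 1).pow 4).mul_const A)
    refine e2.congr_deriv ?_
    simp
  have := hd.deriv
  rw [this] at h
  linarith

end Pool.Agent.NPC.H695OPT
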