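import Pool.Agent.H695R3.OPT.Tasks

/-! Task H11: second-order points of the quartic have `z 0 ≠ 0`. -/

set_option autoImplicit false

namespace Pool.Agent.NPC.H695OPT

open Pool.Agent.NPC.ER

theorem H11_deriv (c1 c2 c3 c4 : ℝ) :
    deriv (fun t : ℝ => 1 + c1 * t + c2 * t ^ 2 + c3 * t ^ 3 + c4 * t ^ 4) =
      fun t => c1 + 2 * c2 * t + 3 * c3 * t ^ 2 + 4 * c4 * t ^ 3 := by
  funext t
  have h := (((((hasDerivAt_const t (1 : ℝ)).add ((hasDerivAt_id t).const_mul c1)).add
    ((hasDerivAt_pow 2 t).const_mul c2)).add ((hasDerivAt_pow 3 t).const_mul c3)).add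
    ((hasDerivAt_pow 4 t).const_mul c4))
  refine (h.congr_deriv ?_).deriv
  norm_num
  ring

theorem H11_deriv2 (c1 c2 c3 c4 : ℝ) :
    deriv (deriv (fun t : ℝ => 1 + c1 * t + c2 * t ^ 2 + c3 * t ^ 3 + c4 * t ^ 4)) 0 =
      2 * c2 := by
  rw [H11_deriv]
  have h := ((((hasDerivAt_const (0 : ℝ) c1).add ((hasDerivAt_id (0 : ℝ)).const_mul (2 * c2))).add
    ((hasDerivAt_pow 2 (0 : ℝ)).const_mul (3 * c3))).add
    ((hasDerivAt_pow 3 (0 : ℝ)).const_mul (4 * c4)))
  refine (h.congr_deriv ?_).deriv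
  norm_num

theorem H11_sum (S : List (Pol ℝ)) (α β : Pol ℝ → ℝ) (t : ℝ) :
    (S.map fun q => (α q * t + β q * t ^ 2) ^ 2).sum =
      (S.map fun q => α q ^ 2).sum * t ^ 2 + 2 * (S.map fun q => α q * β q).sum * t ^ 3 +
        (S.map fun q => β q ^ 2).sum * t ^ 4 := by
  induction S with
  | nil => simp
  | cons q S ih =>
    simp only [List.map_cons, List.sum_cons]
    rw [ih]
    ring

theorem H11_zero (S : List (Pol ℝ)) (f : Pol ℝ → ℝ) (h : (S.map fun q => f q ^ 2).sum = 0) :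
    ∀ q ∈ S, f q = 0 := by
  induction S with
  | nil => simp
  | cons q S ih =>
    simp only [List.map_cons, List.sum_cons] at h
    have h1 : 0 ≤ (S.map fun q => f q ^ 2).sum := by
      apply List.sum_nonneg
      intro x hx
      obtain ⟨q, _, rfl⟩ := List.mem_map.1 hx
      positivity
    have h2 : f q ^ 2 = 0 := by nlinarith [sq_nonneg (f q)]
    intro r hr
    rcases List.mem_cons.1 hr with rfl | hr
    · exact pow_eq_zero_iff (two_ne_zero) |>.1 h2
    · exact ih (by linarith) r hr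

theorem H11 : S_H11 := by
  intro hH1 hH2 hH5 hH12 n S hS z hz hsum hz0
  obtain ⟨hcrit, hsec⟩ := hz
  set Z : ℕ → ℝ := xt z with hZ
  have hq0 := H11_zero S (fun q => pv (q.map homT) Z) hsum
  set h0 : Fin (n + 2) → ℝ := fun i => if (i : ℕ) = 0 then 1 else 0 with hh0
  have x00 : xt h0 0 = 1 := by simp [xt, hh0]
  have x01 : xt h0 1 = 0 := by simp [xt, hh0]
  have hab : ∀ q : Pol ℝ, ∃ α β : ℝ, q ∈ S → ∀ t : ℝ,
      pv (q.map homT) (fun i => Z i + t * xt h0 i) = α * t + β * t ^ 2 := by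
    intro q
    by_cases hq : q ∈ S
    · obtain ⟨α, β, h⟩ := hH12 q (fun t ht => (hS q hq t ht).1) Z (xt h0)
      refine ⟨α, β, fun _ t => ?_⟩
      rw [h t]
      have := hq0 q hq
      rw [this, zero_add]
    · exact ⟨0, 0, fun h => absurd h hq⟩
  choose α β hαβ using hab
  have hval : ∀ (h : Fin (n + 2) → ℝ), (∀ i, i ≠ 1 → xt h i = xt h0 i) → ∀ t : ℝ,
      pfn (n + 2) (quart S) (z + t • h) =
        ((Z 0 + t * 1) * (Z 1 + t * xt h 1) - 1) ^ 2 +
          ((S.map fun q => α q ^ 2).sum * t ^ 2 + 2 * (S.map fun q => α q * β q).sum * t ^ 3 +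
        (S.map fun q => β q ^ 2).sum * t ^ 4) := by
    intro h hh t
    unfold pfn
    rw [hH2 hH1]
    have e0 : xt (z + t • h) = fun i => Z i + t * xt h i := by
      funext i
      exact xt_line z h t i
    rw [e0]
    have e1 : (S.map fun q => (pv (q.map homT) (fun i => Z i + t * xt h i)) ^ 2) =
        S.map fun q => (α q * t + β q * t ^ 2) ^ 2 := by
      apply List.map_congr_left
      intro q hq
      rw [← hαβ q hq t]
      rw [hH5 q (fun i => Z i + t * xt h i) (fun i => Z i + t * xt h0 i)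
        (fun i hi => by rw [hh i hi])]
    rw [e1, H11_sum]
    simp only
    rw [hh 0 (by norm_num), x00]
  -- first direction
  have hz1 : Z 1 = 0 := by
    have h1 := hcrit h0
    have e : (fun t : ℝ => pfn (n + 2) (quart S) (z + t • h0)) = fun t : ℝ =>
        1 + (-2 * Z 1) * t + ((Z 1) ^ 2 + (S.map fun q => α q ^ 2).sum) * t ^ 2 +
          (2 * (S.map fun q => α q * β q).sum) * t ^ 3 + (S.map fun q => β q ^ 2).sum * t ^ 4 := by
      funext t
      rw [hval h0 (fun _ _ => rfl) t, x01, hz0]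
      ring
    rw [e, H11_deriv] at h1
    simp only at h1
    linarith
  -- second direction
  set K : ℝ := (S.map fun q => α q ^ 2).sum / 2 + 1 with hK
  set h1 : Fin (n + 2) → ℝ := fun i => if (i : ℕ) = 0 then 1 else if (i : ℕ) = 1 then K else 0
    with hh1
  have x11 : xt h1 1 = K := by simp [xt, hh1]
  have x1 : ∀ i, i ≠ 1 → xt h1 i = xt h0 i := by
    intro i hi
    unfold xt
    by_cases hlt : i < n + 2
    · rw [dif_pos hlt, dif_pos hlt]
      simp only [hh1, hh0]
      rw [if_neg (show ¬ i = 1 from hi)]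
    · rw [dif_neg hlt, dif_neg hlt]
  have h2 := hsec h1
  have e : (fun t : ℝ => pfn (n + 2) (quart S) (z + t • h1)) = fun t : ℝ =>
      1 + 0 * t + ((S.map fun q => α q ^ 2).sum - 2 * K) * t ^ 2 +
        (2 * (S.map fun q => α q * β q).sum) * t ^ 3 +
          (K ^ 2 + (S.map fun q => β q ^ 2).sum) * t ^ 4 := by
    funext t
    rw [hval h1 x1 t, x11, hz0, hz1]
    ring
  rw [e, H11_deriv2] at h2
  rw [hK] at h2
  linarith

end Pool.Agent.NPC.H695OPT
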