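import Pool.Agent.H695R3.OPT.Tasks

set_option autoImplicit false

namespace Pool.Agent.NPC.H695OPT

open Pool.Agent.NPC.ER

theorem H12_two (m : ℝ × List ℕ) (h : m.2.length ≤ 2) :
    ∃ a b : ℕ, homT m = (m.1, [a, b]) := by
  have hl : (homT m).2.length = 2 := by
    unfold homT
    simp only [List.length_append, List.length_map, List.length_replicate]
    omega
  obtain ⟨a, b, hab⟩ := List.length_eq_two.mp hl
  exact ⟨a, b, Prod.ext rfl hab⟩

theorem H12 : S_H12 := by
  intro q hq z w
  induction q with
  | nil =>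
    refine ⟨0, 0, fun t => ?_⟩
    rw [List.map_nil, pv_nil, pv_nil]
    ring
  | cons m q ih =>
    obtain ⟨α, β, h⟩ := ih (fun t ht => hq t (List.mem_cons_of_mem _ ht))
    obtain ⟨a, b, hab⟩ := H12_two m (hq m List.mem_cons_self)
    refine ⟨m.1 * (z a * w b + w a * z b) + α, m.1 * (w a * w b) + β, fun t => ?_⟩
    rw [List.map_cons, pv_cons, pv_cons, h t, hab]
    simp only [List.map_cons, List.map_nil, List.prod_cons, List.prod_nil]
    ring

end Pool.Agent.NPC.H695OPT
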