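import Pool.Agent.H695R3.OPT.Tasks

/-! H2 (helper666): value of the quartic. -/

namespace Pool.Agent.NPC.H695OPT

theorem H2 : S_H2 := by
  intro h1 S z
  unfold quart
  rw [pv_cons, pv_cons, pv_cons, pv_flatMap]
  have e : (S.map fun q => pv (sqL (q.map homT)) z) = S.map fun q => (pv (q.map homT) z) ^ 2 :=
    List.map_congr_left fun q _ => h1 _ z
  rw [e]
  simp only [List.map_cons, List.map_nil, List.prod_cons, List.prod_nil]
  ring

end Pool.Agent.NPC.H695OPT
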