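
import Pool.Agent.H695R3.OPT.Tasks

set_option autoImplicit false

namespace Pool.Agent.NPC.H695OPT

theorem H3_prod (c : ℝ) (z : ℕ → ℝ) (L : List ℕ) :
    (L.map fun i => c * z i).prod = c ^ L.length * (L.map z).prod := by
  induction L with
  | nil => simp
  | cons a L ih =>
    rw [List.map_cons, List.prod_cons, ih, List.map_cons, List.prod_cons, List.length_cons]
    ring

theorem H3_len (t : ℝ × List ℕ) (h : t.2.length ≤ 2) : (homT t).2.length = 2 := by
  unfold homT
  rw [List.length_append, List.length_map, List.length_replicate]
  omega

theorem H3 : S_H3 := by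
  intro q hq c z
  unfold pv
  induction q with
  | nil => simp
  | cons t q ih =>
    have h1 := ih fun t' ht' => hq t' (List.mem_cons_of_mem _ ht')
    rw [List.map_cons, List.map_cons, List.sum_cons, h1, List.map_cons, List.sum_cons,
      H3_prod c z (homT t).2, H3_len t (hq t List.mem_cons_self)]
    ring

end Pool.Agent.NPC.H695OPT
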