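import Pool.Agent.H695R3.OPT.Tasks

namespace Pool.Agent.NPC.H695OPT

theorem H4 : S_H4 := by
  intro q
  induction q with
  | nil =>
    intro _ z _
    simp [pv]
  | cons t q ih =>
    intro ht z hz
    have ih' := ih (fun s hs => ht s (List.mem_cons_of_mem _ hs)) z hz
    have h2 := ht t (List.mem_cons_self)
    rw [List.map_cons, pv_cons, pv_cons, ih', mul_add]
    congr 1
    obtain ⟨a, l⟩ := t
    simp only at h2
    match l, h2 with
    | [], _ =>
      simp [homT]
      ring
    | [i], _ =>
      simp [homT]
      field_simp
    | [i, j], _ =>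
      simp [homT]
      field_simp
    | _ :: _ :: _ :: _, h => simp at h

end Pool.Agent.NPC.H695OPT
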