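import Pool.Agent.H695R3.OPT.Tasks

namespace Pool.Agent.NPC.H695OPT

open Pool.Agent.NPC.ER

theorem H5 : S_H5 := by
  intro q z z' h
  apply pv_congr
  intro t ht i hi
  rw [List.mem_map] at ht
  obtain ⟨s, _, rfl⟩ := ht
  apply h
  unfold homT at hi
  simp only [List.mem_append, List.mem_map, List.mem_replicate] at hi
  rcases hi with ⟨a, _, rfl⟩ | ⟨_, rfl⟩ <;> omega

end Pool.Agent.NPC.H695OPT
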