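import Pool.Agent.H695R3.OPT.Tasks

set_option autoImplicit false

namespace Pool.Agent.NPC.H695OPT

open Pool.Agent.NPC.ER

theorem H6_homT {R : Type} [CommRing R] {n : ℕ} {t : R × List ℕ}
    (h : t.2.length ≤ 2 ∧ ∀ i ∈ t.2, i < n) :
    (homT t).2.length ≤ 2 ∧ ∀ i ∈ (homT t).2, i < n + 2 := by
  obtain ⟨h1, h2⟩ := h
  have e : (homT t).2 = (t.2.map fun i => i + 2) ++ List.replicate (2 - t.2.length) 0 := rfl
  rw [e]
  constructor
  · rw [List.length_append, List.length_map, List.length_replicate]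
    omega
  · intro i hi
    rcases List.mem_append.1 hi with hi | hi
    · obtain ⟨j, hj, rfl⟩ := List.mem_map.1 hi
      have := h2 j hj
      omega
    · have := List.eq_of_mem_replicate hi
      omega

theorem H6 : S_H6 := by
  intro R _ n S hS t ht
  unfold quart at ht
  rcases List.mem_cons.1 ht with rfl | ht
  · refine ⟨by simp, fun i hi => ?_⟩
    have h : i = 0 ∨ i = 1 := by simpa using hi
    omega
  rcases List.mem_cons.1 ht with rfl | ht
  · refine ⟨by simp, fun i hi => ?_⟩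
    have h : i = 0 ∨ i = 1 := by simpa using hi
    omega
  rcases List.mem_cons.1 ht with rfl | ht
  · refine ⟨by simp, fun i hi => ?_⟩
    exact absurd hi (List.not_mem_nil)
  obtain ⟨q, hq, ht⟩ := List.mem_flatMap.1 ht
  unfold sqL at ht
  obtain ⟨m, hm, ht⟩ := List.mem_flatMap.1 ht
  obtain ⟨m', hm', rfl⟩ := List.mem_map.1 ht
  obtain ⟨a, ha, rfl⟩ := List.mem_map.1 hm
  obtain ⟨b, hb, rfl⟩ := List.mem_map.1 hm'
  obtain ⟨h1, h2⟩ := H6_homT (hS q hq a ha)
  obtain ⟨h3, h4⟩ := H6_homT (hS q hq b hb)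
  refine ⟨?_, fun i hi => ?_⟩
  · show ((homT a).2 ++ (homT b).2).length ≤ 4
    rw [List.length_append]
    omega
  · rcases List.mem_append.1 hi with hi | hi
    · exact h2 i hi
    · exact h4 i hi

end Pool.Agent.NPC.H695OPT
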