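import Pool.Agent.H695R3.OPT.Tasks

set_option autoImplicit false

namespace Pool.Agent.NPC.H695OPT

theorem H7_smul_sum (l : List (Pol ℝ)) (f : Pol ℝ → ℝ) (c : ℝ) :
    (l.map fun q => (c * f q) ^ 2).sum = c ^ 2 * (l.map fun q => (f q) ^ 2).sum := by
  induction l with
  | nil => simp
  | cons a l ih =>
    rw [List.map_cons, List.sum_cons, ih, List.map_cons, List.sum_cons]
    ring

theorem H7_sum_nonneg (l : List (Pol ℝ)) (f : Pol ℝ → ℝ) :
    0 ≤ (l.map fun q => (f q) ^ 2).sum := by
  induction l with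
  | nil => simp
  | cons a l ih =>
    rw [List.map_cons, List.sum_cons]
    have := sq_nonneg (f a)
    linarith

theorem H7 : S_H7 := by
  intro h1 h2 h3 h5 n S hS
  refine ⟨fun z => ?_, fun ε hε => ?_⟩
  · show 0 ≤ pv (quart S) (xt z)
    rw [h2 h1 S (xt z)]
    have a1 := H7_sum_nonneg S (fun q => pv (q.map homT) (xt z))
    have a2 := sq_nonneg (xt z 0 * xt z 1 - 1)
    linarith
  · let u : ℕ → ℝ := fun i => if i = 0 then 1 else 0
    set K : ℝ := (S.map fun q => (pv (q.map homT) u) ^ 2).sum with hK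
    have hK0 : 0 ≤ K := H7_sum_nonneg S (fun q => pv (q.map homT) u)
    set s : ℝ := min 1 (ε / (K + 1)) with hs
    have hs0 : 0 < s := lt_min one_pos (by positivity)
    have hs1 : s ≤ 1 := min_le_left _ _
    have hs2 : s ≤ ε / (K + 1) := min_le_right _ _
    let z : Fin (n + 2) → ℝ := fun i => if (i : ℕ) = 0 then s else if (i : ℕ) = 1 then s⁻¹ else 0
    have z0 : xt z 0 = s := by
      rw [xt_of_lt z (by omega : 0 < n + 2)]
      simp [z]
    have z1 : xt z 1 = s⁻¹ := by
      rw [xt_of_lt z (by omega : 1 < n + 2)]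
      simp [z]
    have z2 : ∀ i, i ≠ 1 → xt z i = s * u i := by
      intro i hi
      by_cases h0 : i = 0
      · subst h0
        rw [z0]
        simp [u]
      · by_cases hlt : i < n + 2
        · rw [xt_of_lt z hlt]
          simp [z, u, h0, hi]
        · simp [xt, hlt, u, h0]
    refine ⟨z, ?_⟩
    show pv (quart S) (xt z) < ε
    rw [h2 h1 S (xt z), z0, z1, mul_inv_cancel₀ hs0.ne', sub_self]
    have e : (S.map fun q => (pv (q.map homT) (xt z)) ^ 2) =
        (S.map fun q => (s ^ 2 * pv (q.map homT) u) ^ 2) := by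
      refine List.map_congr_left fun q hq => ?_
      rw [h5 q (xt z) (fun i => s * u i) z2, h3 q (fun t ht => (hS q hq t ht).1) s u]
    rw [e, H7_smul_sum, ← hK]
    have a1 : (s ^ 2) ^ 2 * K ≤ s * K := by
      refine mul_le_mul_of_nonneg_right ?_ hK0
      have : (s ^ 2) ^ 2 = s * s ^ 3 := by ring
      rw [this]
      exact mul_le_of_le_one_right hs0.le (pow_le_one₀ hs0.le hs1)
    have a2 : s * K < ε := by
      rw [le_div_iff₀ (by linarith)] at hs2
      linarith
    have a3 : (0 : ℝ) ^ 2 = 0 := by norm_num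
    rw [a3, zero_add]
    linarith

end Pool.Agent.NPC.H695OPT
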