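import Pool.Agent.H695R3.OPT.Tasks

namespace Pool.Agent.NPC.H695OPT

open Pool.Agent.NPC.ER

theorem H8 : S_H8 := by
  intro h1 h2 h4 n S hS ⟨x, hx⟩
  set z : Fin (n + 2) → ℝ := fun i => if (i : ℕ) < 2 then 1 else xt x (i - 2) with hz
  refine ⟨z, ?_⟩
  show pv (quart S) (xt z) = 0
  have e0 : xt z 0 = 1 := by
    rw [xt_of_lt z (by omega : 0 < n + 2)]; simp [hz]
  have e1 : xt z 1 = 1 := by
    rw [xt_of_lt z (by omega : 1 < n + 2)]; simp [hz]
  have e2 : ∀ i < n, xt z (i + 2) = xt x i := by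
    intro i hi
    rw [xt_of_lt z (by omega : i + 2 < n + 2)]
    simp only [hz]
    rw [if_neg (by omega)]
    simp
  have key : ∀ q ∈ S, pv (q.map homT) (xt z) = 0 := by
    intro q hq
    rw [h4 q (fun t ht => (hS q hq t ht).1) _ (by rw [e0]; norm_num), e0]
    have h3 : pv q (fun i => xt z (i + 2) / 1) = pfn n q x :=
      pv_congr_deg (hS q hq) (fun i hi => by
        show xt z (i + 2) / 1 = xt x i
        rw [e2 i hi, div_one])
    rw [h3, hx q hq]
    ring
  rw [h2 h1, e0, e1]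
  have h5 : (S.map fun q => (pv (q.map homT) (xt z)) ^ 2).sum = 0 := by
    apply List.sum_eq_zero
    intro r hr
    obtain ⟨q, hq, rfl⟩ := List.mem_map.1 hr
    rw [key q hq]
    norm_num
  rw [h5]
  norm_num

end Pool.Agent.NPC.H695OPT
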