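import Mathlib
import Pool.Agent.H695R3.OPT.Tasks

set_option autoImplicit false

namespace Pool.Agent.NPC.H695OPT

theorem H9_sum {α : Type} (f : α → ℝ) (hf : ∀ a, 0 ≤ f a) :
    ∀ l : List α, 0 ≤ (l.map f).sum ∧ ((l.map f).sum = 0 → ∀ a ∈ l, f a = 0)
  | [] => by simp
  | b :: l => by
    obtain ⟨h1, h2⟩ := H9_sum f hf l
    have hb := hf b
    rw [List.map_cons, List.sum_cons]
    refine ⟨add_nonneg hb h1, fun h a ha => ?_⟩
    rcases List.mem_cons.1 ha with rfl | ha
    · linarith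
    · exact h2 (by linarith) a ha

theorem H9 : S_H9 := by
  intro hH4 n S hS z hz0 hsum
  refine ⟨fun i : Fin n => xt z ((i : ℕ) + 2) / xt z 0, fun q hq => ?_⟩
  have h1 := (H9_sum (fun q => (pv (q.map homT) (xt z)) ^ 2) (fun q => sq_nonneg _) S).2 hsum q hq
  have h2 : pv (q.map homT) (xt z) = 0 := pow_eq_zero_iff (two_ne_zero) |>.1 h1
  rw [hH4 q (fun t ht => (hS q hq t ht).1) (xt z) hz0] at h2
  have h3 : pv q (fun i => xt z (i + 2) / xt z 0) = 0 := by
    rcases mul_eq_zero.1 h2 with h | h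
    · exact absurd (pow_eq_zero_iff (two_ne_zero) |>.1 h) hz0
    · exact h
  exact (pfn_restrict (hS q hq) (fun i => xt z (i + 2) / xt z 0)).trans h3

end Pool.Agent.NPC.H695OPT
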