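import Pool.Agent.H695R3.OPT.Defs

/-! The numbers of terms. -/

namespace Pool.Agent.NPC.H695OPT

theorem length_sqL {R : Type} [CommRing R] (q : Pol R) : (sqL q).length = q.length ^ 2 := by
  unfold sqL
  rw [List.length_flatMap]
  simp [sq]

theorem length_quart {R : Type} [CommRing R] (S : List (Pol R)) :
    (quart S).length = 3 + (S.map fun q => q.length ^ 2).sum := by
  unfold quart
  simp only [List.length_cons, List.length_flatMap, length_sqL, List.length_map]
  omega

theorem length_lagr {R : Type} (S : List (Pol R)) :
    (lagr S).length = (S.map List.length).sum := by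
  unfold lagr
  rw [List.length_flatMap]
  congr 1
  apply List.ext_getElem
  · simp
  · intro i h1 h2
    simp at h1
    simp [h1]

end Pool.Agent.NPC.H695OPT
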