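import Pool.Agent.H695R3.OPT.Assembly
import Pool.Agent.H695R3.OPT.Field
import Pool.Agent.H695R3.OPT.Len
import Pool.Agent.H695R3.OPT.H1
import Pool.Agent.H695R3.OPT.H2
import Pool.Agent.H695R3.OPT.H3
import Pool.Agent.H695R3.OPT.H4
import Pool.Agent.H695R3.OPT.H5
import Pool.Agent.H695R3.OPT.H6
import Pool.Agent.H695R3.OPT.H7
import Pool.Agent.H695R3.OPT.H8
import Pool.Agent.H695R3.OPT.H9
import Pool.Agent.H695R3.OPT.H10
import Pool.Agent.H695R3.OPT.H11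
import Pool.Agent.H695R3.OPT.H12
import Pool.Agent.H695R3.OPT.D1
import Pool.Agent.H695R3.OPT.D2
import Pool.Agent.H695R3.OPT.D3
import Pool.Agent.H695R3.OPT.D4
import Pool.Agent.H695R3.OPT.D5
import Pool.Agent.H695R3.OPT.D6
import Pool.Agent.H695R3.OPT.D7
import Pool.Agent.H695R3.OPT.D9
import Pool.Agent.H695R3.OPT.C1
import Pool.Agent.H695R3.OPT.C2
import Pool.Agent.H695R3.OPT.C3
import Pool.Agent.H695R3.OPT.B0
import Pool.Agent.H695R3.OPT.B1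
import Pool.Agent.H695R3.OPT.B2
import Pool.Agent.H695R3.OPT.B3
import Pool.Agent.H695R3.OPT.B4
import Pool.Agent.H695R3.OPT.B5
import Pool.Agent.H695R3.OPT.B6
import Pool.Agent.H695R3.OPT.B7
import Pool.Agent.H695R3.OPT.B8
import Pool.Agent.H695R3.OPT.B9

/-! The main statements. -/

namespace Pool.Agent.NPC.H695OPT

open Pool.Agent.NPC Pool.Agent.NPC.ER

theorem main_quartic : ∀ (n : ℕ) (S : List (Pol ℝ)), (∀ q ∈ S, Deg 2 n q) →
    Deg 4 (n + 2) (quart S) ∧ (quart S).length = 3 + (S.map fun q => q.length ^ 2).sum ∧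
    (∀ z, 0 ≤ pfn (n + 2) (quart S) z) ∧
    (∀ ε : ℝ, 0 < ε → ∃ z, pfn (n + 2) (quart S) z < ε) ∧
    List.TFAE [Solv n S, ∃ z, pfn (n + 2) (quart S) z = 0, Attains (pfn (n + 2) (quart S)),
      HasLocMin (pfn (n + 2) (quart S)), HasSOP (pfn (n + 2) (quart S))] := by
  intro n S hS
  exact ⟨H6 ℝ _ n S hS, length_quart S, (H7 H1 H2 H3 H5 n S hS).1, (H7 H1 H2 H3 H5 n S hS).2,
    quartic_tfae H1 H2 H3 H4 H5 H6 H7 H8 H9 H10 H11 H12 D9 n S hS⟩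

theorem main_sop : ∀ (n : ℕ) (p : Pol ℝ), Deg 4 n p →
    (∀ q ∈ sopSys n p, Deg 3 (n + n * n) q) ∧
    (HasSOP (pfn n p) ↔ Solv (n + n * n) (sopSys n p)) := fun n p hp =>
  ⟨(D7 D2 ℝ _ n p).1 hp, D6 D1 D2 D3 D4 D5 n p hp⟩

theorem main_cubic : ∀ (n : ℕ) (S : List (Pol ℝ)), (∀ q ∈ S, Deg 2 n q) →
    Deg 3 (S.length + n) (lagr S) ∧ (lagr S).length = (S.map List.length).sum ∧
    (Solv n S ↔ HasCrit (pfn (S.length + n) (lagr S))) := fun n S hS =>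
  ⟨C2 ℝ inferInstance n S hS, length_lagr S, C3 C1 n S hS⟩

theorem main_crit : ∀ (n : ℕ) (p : Pol ℝ), Deg 3 n p → (∀ q ∈ critSys n p, Deg 2 n q) ∧
    (HasCrit (pfn n p) ↔ Solv n (critSys n p)) := fun n p hp =>
  ⟨(D7 D2 ℝ inferInstance n p).2 hp, hasCrit_iff D1 D3 hp⟩

theorem between (Q : Inst → Prop) (h1 : ∀ P, InfZero P → Attains (ifn P) → Q P)
    (h2 : ∀ P, InfZero P → Q P → HasSOP (ifn P)) : H612.ERHardWithin InfZero Q :=
  between_hard H1 H2 H3 H4 H5 H6 H7 H8 H9 H10 H11 H12 D9 B0 B1 B2 B5 Q h1 h2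

theorem sop_of_locMin' {P : Inst} (hP : IsDeg 4 P) (h : HasLocMin (ifn P)) : HasSOP (ifn P) :=
  sop_of_locMin D9 ((B1.2.2.2.2 _ _ _).2 hP) h

theorem locMin_hard : ERHard (lang fun P : Inst => IsDeg 4 P ∧ HasLocMin (ifn P)) :=
  (between (fun P => IsDeg 4 P ∧ HasLocMin (ifn P)) (fun _ hP h => ⟨hP.1, locMin_of_attains h⟩)
    fun _ hP h => sop_of_locMin' hP.1 h.2).toERHard

theorem attains_hard : ERHard (lang fun P : Inst => IsDeg 4 P ∧ Attains (ifn P)) :=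
  (between (fun P => IsDeg 4 P ∧ Attains (ifn P)) (fun _ hP h => ⟨hP.1, h⟩)
    fun _ hP h => sop_of_locMin' hP.1 (locMin_of_attains h.2)).toERHard

theorem sop_complete : ERComplete (lang fun P : Inst => IsDeg 4 P ∧ HasSOP (ifn P)) :=
  ⟨sop_inER D1 D2 D3 D4 D5 D6 D7 B9 B1 B3 B4 B7,
    (between (fun P => IsDeg 4 P ∧ HasSOP (ifn P))
      (fun _ hP h => ⟨hP.1, sop_of_locMin' hP.1 (locMin_of_attains h)⟩)
      fun _ _ h => h.2).toERHard⟩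

theorem crit_complete : ERComplete (lang fun P : Inst => IsDeg 3 P ∧ HasCrit (ifn P)) := by
  refine ⟨crit_inER D1 D2 D3 D7 B9 B1 B3 B4 B8, ERHard.of_sys (B6) fun S => ?_⟩
  have h := redL_spec C1 C2 C3 B1 B2 S
  exact ⟨fun h' => ⟨h.1, h.2.1 h'⟩, fun h' => h.2.2 h'.2⟩

end Pool.Agent.NPC.H695OPT
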